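import Mathlib
import Pool.Agent.Hhelper87.FC.Main2
set_option autoImplicit false

/-!
# Closed triples

A closed pair `(GM, QM)` together with, for every prime `p`, a space `CM p` of functions
`G → ZMod p`, closed under a prescribed countable set of operations.
-/

namespace Pool.Agent.TOM
open Subgroup Pool.Agent.Hhelper87.FC
open scoped IsMulCommutative

universe u

/-- The universe in which the closure operator works. -/
abbrev UU (G : Type u) [Group G] : Type u := (G ⊕ MulAut G) ⊕ (Σ p : ℕ, (G → ZMod p))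

variable {G : Type u} [Group G]

/-- `x ∈ Jt t` iff `t * x` is conjugate to `x`. -/
def Jt (t : G) : Set G := {x | t * x ∈ conjugatesOf x}

/-- Fifth type of demand: the displacement is the given product. -/
def R5 (p : ℕ) (l : Finset (center G × (G → ZMod p))) (x : G) : Set G :=
  {y | y * x⁻¹ = ((∏ q ∈ l, q.1 ^ (q.2 x).val : center G) : G)}

/-- Closed triples. -/
structure ClosedTriple (Dt : Dat G) (Op : (p : ℕ) → (G → ZMod p) → Set (G → ZMod p))
    (Lb : (p : ℕ) → (G → ZMod p) → Set G) (GM : Subgroup G) (QM : Subgroup (MulAut G))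
    (CM : (p : ℕ) → Submodule (ZMod p) (G → ZMod p)) : Prop where
  pair : ClosedPair Dt GM QM
  mulJ : ∀ p, ∀ t ∈ GM, ∀ s ∈ CM p, (Jt t).indicator s ∈ CM p
  ind : ∀ p, ∀ φ ∈ QM, ∀ t ∈ GM, Set.indicator {x | φ x = t * x} (1 : G → ZMod p) ∈ CM p
  sep : ∀ p, ∀ s ∈ CM p, (∀ x ∈ GM, s x = 0) → s = 0
  g5 : ∀ p, p.Prime → ∀ l : Finset (center G × (G → ZMod p)),
    (∀ q ∈ l, q.1 ^ p = 1 ∧ (q.1 : G) ∈ GM ∧ q.2 ∈ CM p) → Good (GM : Set G) QM (R5 p l)
  op : ∀ p, ∀ s ∈ CM p, ∀ s' ∈ Op p s, s' ∈ CM p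
  lb : ∀ p, ∀ s ∈ CM p, ∀ x ∈ Lb p s, x ∈ GM

theorem finite_ll (F : Finset (UU G)) :
    {x : G | (Sum.inl (Sum.inl x) : UU G) ∈ F}.Finite :=
  F.finite_toSet.preimage ((Sum.inl_injective.comp Sum.inl_injective).injOn)

theorem finite_lr (F : Finset (UU G)) :
    {x : MulAut G | (Sum.inl (Sum.inr x) : UU G) ∈ F}.Finite :=
  F.finite_toSet.preimage ((Sum.inl_injective.comp Sum.inr_injective).injOn)

theorem finite_l (F : Finset (UU G)) :
    {x : G ⊕ MulAut G | (Sum.inl x : UU G) ∈ F}.Finite :=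
  F.finite_toSet.preimage (Sum.inl_injective.injOn)

theorem finite_r (F : Finset (UU G)) :
    {x : (Σ p : ℕ, (G → ZMod p)) | (Sum.inr x : UU G) ∈ F}.Finite :=
  F.finite_toSet.preimage (Sum.inr_injective.injOn)

theorem finite_rp (F : Finset (UU G)) (p : ℕ) :
    {x : G → ZMod p | (Sum.inr ⟨p, x⟩ : UU G) ∈ F}.Finite :=
  Set.Finite.preimage (f := fun x : G → ZMod p => (⟨p, x⟩ : Σ p : ℕ, (G → ZMod p)))
    (fun _ _ _ _ h => sigma_mk_injective h) (finite_r F)

theorem finite_g5 (F : Finset (UU G)) (p : ℕ) :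
    {l : Finset (center G × (G → ZMod p)) | ∀ q ∈ l, (Sum.inl (Sum.inl (q.1 : G)) : UU G) ∈ F ∧
      (Sum.inr ⟨p, q.2⟩ : UU G) ∈ F}.Finite := by
  have h0 : {x : center G | (Sum.inl (Sum.inl (x : G)) : UU G) ∈ F}.Finite :=
    Set.Finite.preimage (f := fun x : center G => (x : G)) (Subtype.val_injective.injOn)
      (finite_ll F)
  have h1 := (h0.prod (finite_rp F p)).finite_subsets
  refine (h1.preimage (f := fun l : Finset (center G × (G → ZMod p)) =>
    (l : Set (center G × (G → ZMod p)))) Finset.coe_injective.injOn).subset ?_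
  intro l hl q hq
  exact ⟨(hl q hq).1, (hl q hq).2⟩

theorem countable_g5 (F : Finset (UU G)) :
    {l : (Σ p : ℕ, Finset (center G × (G → ZMod p))) | ∀ q ∈ l.2,
      (Sum.inl (Sum.inl (q.1 : G)) : UU G) ∈ F ∧
      (Sum.inr ⟨l.1, q.2⟩ : UU G) ∈ F}.Countable := by
  have h1 : (⋃ p : ℕ, Sigma.mk p '' {l : Finset (center G × (G → ZMod p)) |
      ∀ q ∈ l, (Sum.inl (Sum.inl (q.1 : G)) : UU G) ∈ F ∧
      (Sum.inr ⟨p, q.2⟩ : UU G) ∈ F}).Countable :=
    Set.countable_iUnion (fun p => (finite_g5 F p).countable.image _)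
  refine h1.mono ?_
  rintro ⟨p, l⟩ hl
  exact Set.mem_iUnion.mpr ⟨p, l, hl, rfl⟩

/-- `Good'` for the larger universe. -/
def Good5 (T : Set (UU G)) (R : G → Set G) : Prop := Good' (Sum.inl ⁻¹' T) R

theorem exists_good5 (hFC : IsFC G) {p : ℕ} (hp : p.Prime)
    (l : Finset (center G × (G → ZMod p))) (hl : ∀ q ∈ l, q.1 ^ p = 1) :
    ∃ T : Set (UU G), T.Countable ∧ Good5 T (R5 p l) := by
  classical
  have hne : NeZero p := ⟨hp.ne_zero⟩
  -- the finite central subgroup generated by the elements in question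
  let S : Set G := (fun q : center G × (G → ZMod p) => (q.1 : G)) '' (l : Set _)
  have hS : S.Finite := l.finite_toSet.image _
  have hE : FN (Subgroup.closure S) := by
    refine FN_closure hS ?_ ?_
    · rintro _ ⟨q, hq, rfl⟩
      refine isOfFinOrder_iff_pow_eq_one.mpr ⟨p, hp.pos, ?_⟩
      have := congrArg Subtype.val (hl q hq)
      simpa using this
    · rintro g _ ⟨q, hq, rfl⟩
      refine ⟨q, hq, ?_⟩
      have := mem_center_iff.mp q.1.2 g
      simp only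
      rw [this, mul_inv_cancel_right]
  obtain ⟨T, hT, hG⟩ := exists_good' hFC hE (R5 p l) (by
    intro x y hy
    have hy' : y * x⁻¹ = ((∏ q ∈ l, q.1 ^ (q.2 x).val : center G) : G) := hy
    rw [hy']
    have h1 : (∏ q ∈ l, q.1 ^ (q.2 x).val : center G) ∈
        (Subgroup.closure S).comap (center G).subtype := by
      apply prod_mem
      intro q hq
      apply pow_mem
      exact subset_closure ⟨q, hq, rfl⟩
    exact h1)
  refine ⟨Sum.inl '' T, hT.image _, ?_⟩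
  unfold Good5
  rw [Set.preimage_image_eq _ Sum.inl_injective]
  exact hG

theorem exists_cl_triple (hFC : IsFC G) (Dt : Dat G)
    (Op : (p : ℕ) → (G → ZMod p) → Set (G → ZMod p))
    (Lb : (p : ℕ) → (G → ZMod p) → Set G)
    (hOp : ∀ p s, (Op p s).Countable) (hLb : ∀ p s, (Lb p s).Countable) :
    ∃ cl : Set (UU G) → Set (UU G),
      (∀ S, S ⊆ cl S) ∧ (∀ S S', S ⊆ S' → cl S ⊆ cl S') ∧
      (∀ S, S.Countable → (cl S).Countable) ∧
      (∀ S x, x ∈ cl S → ∃ F : Finset (UU G), (F : Set (UU G)) ⊆ S ∧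
        x ∈ cl (F : Set (UU G))) ∧
      (∀ S, ∃ (GM : Subgroup G) (QM : Subgroup (MulAut G))
        (CM : (p : ℕ) → Submodule (ZMod p) (G → ZMod p)),
        (∀ x, x ∈ GM ↔ Sum.inl (Sum.inl x) ∈ cl S) ∧
        (∀ φ, φ ∈ QM ↔ φ ∈ Qh G ∧ Sum.inl (Sum.inr φ) ∈ cl S) ∧
        ClosedTriple Dt Op Lb GM QM CM) := by
  classical
  obtain ⟨cl0, k1, k2, k3, k4, k5⟩ := exists_cl_pair hFC Dt
  -- requirements
  have q0 : Req (fun (F : Finset (UU G)) (T : Set (UU G)) =>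
      ∀ x ∈ cl0 {y : G ⊕ MulAut G | (Sum.inl y : UU G) ∈ F}, Sum.inl x ∈ T) :=
    { mono := fun F T T' hT h x hx => hT (h x hx)
      wit := fun F => ⟨Sum.inl '' (cl0 {y : G ⊕ MulAut G | (Sum.inl y : UU G) ∈ F}),
        (k3 _ (finite_l F).countable).image _, fun x hx => ⟨x, hx, rfl⟩⟩ }
  have q1 : Req (fun (F : Finset (UU G)) (T : Set (UU G)) =>
      ∀ r ∈ ({x : (Σ p : ℕ, (G → ZMod p)) | (Sum.inr x : UU G) ∈ F} ×ˢ
        {x : (Σ p : ℕ, (G → ZMod p)) | (Sum.inr x : UU G) ∈ F}),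
        (∀ (p : ℕ) (s s' : G → ZMod p), r.1 = ⟨p, s⟩ → r.2 = ⟨p, s'⟩ →
          (Sum.inr ⟨p, s + s'⟩ : UU G) ∈ T)) :=
    Req.params _ (fun F => ((finite_r F).prod (finite_r F)).countable) _
      (fun r T T' hT h p s s' h1 h2 => hT (h p s s' h1 h2))
      (fun r => by
        obtain ⟨⟨p, s⟩, ⟨p', s'⟩⟩ := r
        by_cases hpp : p = p'
        · subst hpp
          refine ⟨{Sum.inr ⟨p, s + s'⟩}, Set.countable_singleton _, ?_⟩
          rintro q t t' h1 h2
          obtain ⟨h3, h4⟩ := Sigma.mk.inj_iff.mp h1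
          have h3' : p = q := h3
          subst h3'
          obtain ⟨-, h5⟩ := Sigma.mk.inj_iff.mp h2
          have h4' := eq_of_heq h4
          have h5' := eq_of_heq h5
          rw [← h4', ← h5']
          rfl
        · refine ⟨∅, Set.countable_empty, ?_⟩
          rintro q t t' h1 h2
          obtain ⟨h3, -⟩ := Sigma.mk.inj_iff.mp h1
          obtain ⟨h4, -⟩ := Sigma.mk.inj_iff.mp h2
          exact absurd (h3.trans h4.symm) hpp)
  have q2 : Req (fun (F : Finset (UU G)) (T : Set (UU G)) =>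
      ∀ r ∈ {x : (Σ p : ℕ, (G → ZMod p)) | (Sum.inr x : UU G) ∈ F},
        (∀ a : ZMod r.1, (Sum.inr ⟨r.1, a • r.2⟩ : UU G) ∈ T)) :=
    Req.params _ (fun F => (finite_r F).countable) _
      (fun r T T' hT h a => hT (h a))
      (fun r => ⟨Set.range (fun a : ZMod r.1 => (Sum.inr ⟨r.1, a • r.2⟩ : UU G)), by
        have : Countable (ZMod r.1) := by
          obtain ⟨p, s⟩ := r
          cases p with
          | zero => exact (inferInstance : Countable ℤ)
          | succ n => exact (inferInstance : Countable (Fin (n + 1)))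
        exact Set.countable_range _, fun a => ⟨a, rfl⟩⟩)
  have q3 : Req (fun (_ : Finset (UU G)) (T : Set (UU G)) =>
      ∀ p ∈ (Set.univ : Set ℕ), (Sum.inr ⟨p, 0⟩ : UU G) ∈ T) :=
    Req.params _ (fun F => Set.countable_univ) _
      (fun p T T' hT h => hT h) (fun p => ⟨{_}, Set.countable_singleton _, rfl⟩)
  have q4 : Req (fun (F : Finset (UU G)) (T : Set (UU G)) =>
      ∀ r ∈ ({x : G | (Sum.inl (Sum.inl x) : UU G) ∈ F} ×ˢ
        {x : (Σ p : ℕ, (G → ZMod p)) | (Sum.inr x : UU G) ∈ F}),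
        (Sum.inr ⟨r.2.1, (Jt r.1).indicator r.2.2⟩ : UU G) ∈ T) :=
    Req.params _ (fun F => ((finite_ll F).prod (finite_r F)).countable) _
      (fun p T T' hT h => hT h) (fun p => ⟨{_}, Set.countable_singleton _, rfl⟩)
  have q5 : Req (fun (F : Finset (UU G)) (T : Set (UU G)) =>
      ∀ r ∈ ({x : MulAut G | (Sum.inl (Sum.inr x) : UU G) ∈ F} ×ˢ
        {x : G | (Sum.inl (Sum.inl x) : UU G) ∈ F}),
        (∀ p : ℕ, (Sum.inr ⟨p, Set.indicator {x | r.1 x = r.2 * x} (1 : G → ZMod p)⟩ : UU G)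
          ∈ T)) :=
    Req.params _ (fun F => ((finite_lr F).prod (finite_ll F)).countable) _
      (fun r T T' hT h p => hT (h p))
      (fun r => ⟨Set.range (fun p : ℕ =>
        (Sum.inr ⟨p, Set.indicator {x | r.1 x = r.2 * x} (1 : G → ZMod p)⟩ : UU G)),
        Set.countable_range _, fun p => ⟨p, rfl⟩⟩)
  have q6 : Req (fun (F : Finset (UU G)) (T : Set (UU G)) =>
      ∀ r ∈ {x : (Σ p : ℕ, (G → ZMod p)) | (Sum.inr x : UU G) ∈ F},
        (r.2 ≠ 0 → ∃ x : G, (Sum.inl (Sum.inl x) : UU G) ∈ T ∧ r.2 x ≠ 0)) :=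
    Req.params _ (fun F => (finite_r F).countable) _
      (fun r T T' hT h hr => by
        obtain ⟨x, h1, h2⟩ := h hr
        exact ⟨x, hT h1, h2⟩)
      (fun r => by
        by_cases hr : r.2 = 0
        · exact ⟨∅, Set.countable_empty, fun h => absurd hr h⟩
        · obtain ⟨x, hx⟩ := Function.ne_iff.mp hr
          exact ⟨{Sum.inl (Sum.inl x)}, Set.countable_singleton _, fun _ => ⟨x, rfl, hx⟩⟩)
  have q7 : Req (fun (F : Finset (UU G)) (T : Set (UU G)) =>
      ∀ l ∈ {l : (Σ p : ℕ, Finset (center G × (G → ZMod p))) | ∀ q ∈ l.2,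
        (Sum.inl (Sum.inl (q.1 : G)) : UU G) ∈ F ∧ (Sum.inr ⟨l.1, q.2⟩ : UU G) ∈ F},
        (l.1.Prime → (∀ q ∈ l.2, q.1 ^ l.1 = 1) → Good5 T (R5 l.1 l.2))) :=
    Req.params _ (fun F => countable_g5 F) _
      (fun l T T' hT h h1 h2 => (h h1 h2).mono (Set.preimage_mono hT))
      (fun l => by
        by_cases h1 : l.1.Prime
        · by_cases h2 : ∀ q ∈ l.2, q.1 ^ l.1 = 1
          · obtain ⟨T, hT, hG⟩ := exists_good5 hFC h1 l.2 h2
            exact ⟨T, hT, fun _ _ => hG⟩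
          · exact ⟨∅, Set.countable_empty, fun _ h => absurd h h2⟩
        · exact ⟨∅, Set.countable_empty, fun h => absurd h h1⟩)
  have q8 : Req (fun (F : Finset (UU G)) (T : Set (UU G)) =>
      ∀ r ∈ {x : (Σ p : ℕ, (G → ZMod p)) | (Sum.inr x : UU G) ∈ F},
        ((∀ s' ∈ Op r.1 r.2, (Sum.inr ⟨r.1, s'⟩ : UU G) ∈ T) ∧
          ∀ x ∈ Lb r.1 r.2, (Sum.inl (Sum.inl x) : UU G) ∈ T)) :=
    Req.params _ (fun F => (finite_r F).countable) _
      (fun r T T' hT h => ⟨fun s' hs' => hT (h.1 s' hs'), fun x hx => hT (h.2 x hx)⟩)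
      (fun r => ⟨((fun s' => (Sum.inr ⟨r.1, s'⟩ : UU G)) '' Op r.1 r.2) ∪
        ((fun x => (Sum.inl (Sum.inl x) : UU G)) '' Lb r.1 r.2),
        ((hOp _ _).image _).union ((hLb _ _).image _),
        fun s' hs' => Or.inl ⟨s', hs', rfl⟩, fun x hx => Or.inr ⟨x, hx, rfl⟩⟩)
  have hreq := (((((((q0.and q1).and q2).and q3).and q4).and q5).and q6).and q7).and q8
  obtain ⟨cl, hcl1, hcl2, hcl3, hcl4, hcl5⟩ := exists_cl hreq
  refine ⟨cl, hcl1, hcl2, hcl4, hcl5, fun S => ?_⟩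
  have hS := hcl3 S
  have c0 := fun F hF => (hS F hF).1.1.1.1.1.1.1.1
  have c1 := fun F hF => (hS F hF).1.1.1.1.1.1.1.2
  have c2 := fun F hF => (hS F hF).1.1.1.1.1.1.2
  have c3 := fun F hF => (hS F hF).1.1.1.1.1.2
  have c4 := fun F hF => (hS F hF).1.1.1.1.2
  have c5 := fun F hF => (hS F hF).1.1.1.2
  have c6 := fun F hF => (hS F hF).1.1.2
  have c7 := fun F hF => (hS F hF).1.2
  have c8 := fun F hF => (hS F hF).2
  -- the group part
  have hT0 : cl0 (Sum.inl ⁻¹' cl S) ⊆ Sum.inl ⁻¹' cl S := by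
    intro x hx
    obtain ⟨F0, hF0, hx0⟩ := k4 _ x hx
    have h1 : ((F0.image Sum.inl : Finset (UU G)) : Set (UU G)) ⊆ cl S := by
      intro y hy
      obtain ⟨z, hz, rfl⟩ := Finset.mem_image.mp (Finset.mem_coe.mp hy)
      exact hF0 (Finset.mem_coe.mpr hz)
    refine c0 _ h1 x ?_
    refine k2 _ _ ?_ hx0
    intro y hy
    exact Finset.mem_image_of_mem _ (Finset.mem_coe.mp hy)
  have hT0' : ∀ x, x ∈ cl0 (Sum.inl ⁻¹' cl S) ↔ Sum.inl x ∈ cl S := fun x =>
    ⟨fun h => hT0 h, fun h => k1 _ h⟩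
  obtain ⟨GM, QM, hGM, hQM, hpair⟩ := k5 (Sum.inl ⁻¹' cl S)
  have hGM' : ∀ x, x ∈ GM ↔ Sum.inl (Sum.inl x) ∈ cl S := fun x => by
    rw [hGM, hT0']
  have hQM' : ∀ φ, φ ∈ QM ↔ φ ∈ Qh G ∧ Sum.inl (Sum.inr φ) ∈ cl S := fun x => by
    rw [hQM, hT0']
  let CM : (p : ℕ) → Submodule (ZMod p) (G → ZMod p) := fun p =>
    { carrier := {s | (Sum.inr ⟨p, s⟩ : UU G) ∈ cl S}
      add_mem' := by
        intro s s' hs hs'
        refine c1 {Sum.inr ⟨p, s⟩, Sum.inr ⟨p, s'⟩} ?_ (⟨p, s⟩, ⟨p, s'⟩) ?_ p s s' rfl rfl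
        · intro z hz
          rcases Finset.mem_insert.mp (Finset.mem_coe.mp hz) with h | h
          · rw [h]; exact hs
          · rw [Finset.mem_singleton.mp h]; exact hs'
        · constructor <;> simp
      zero_mem' := c3 ∅ (by simp) p trivial
      smul_mem' := by
        intro a s hs
        have hs' : (Sum.inr ⟨p, s⟩ : UU G) ∈ cl S := hs
        exact c2 {Sum.inr ⟨p, s⟩} (by simpa using hs') ⟨p, s⟩ (by simp) a }
  have hCM : ∀ p s, s ∈ CM p ↔ (Sum.inr ⟨p, s⟩ : UU G) ∈ cl S := fun p s => Iff.rfl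
  refine ⟨GM, QM, CM, hGM', hQM', ?_⟩
  refine
    { pair := hpair
      mulJ := ?_
      ind := ?_
      sep := ?_
      g5 := ?_
      op := ?_
      lb := ?_ }
  · intro p t ht s hs
    rw [hGM'] at ht
    rw [hCM] at hs ⊢
    refine c4 {Sum.inl (Sum.inl t), Sum.inr ⟨p, s⟩} ?_ (t, ⟨p, s⟩) ?_
    · intro z hz
      rcases Finset.mem_insert.mp (Finset.mem_coe.mp hz) with h | h
      · rw [h]; exact ht
      · rw [Finset.mem_singleton.mp h]; exact hs
    · constructor <;> simp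
  · intro p φ hφ t ht
    rw [hGM'] at ht
    have hφ' := ((hQM' φ).mp hφ).2
    rw [hCM]
    refine c5 {Sum.inl (Sum.inr φ), Sum.inl (Sum.inl t)} ?_ (φ, t) ?_ p
    · intro z hz
      rcases Finset.mem_insert.mp (Finset.mem_coe.mp hz) with h | h
      · rw [h]; exact hφ'
      · rw [Finset.mem_singleton.mp h]; exact ht
    · constructor <;> simp
  · intro p s hs hzero
    rw [hCM] at hs
    by_contra hne
    obtain ⟨x, hx, hx2⟩ := c6 {Sum.inr ⟨p, s⟩} (by simpa using hs) ⟨p, s⟩ (by simp) hne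
    exact hx2 (hzero x ((hGM' x).mpr hx))
  · intro p hp l hl
    let F : Finset (UU G) := l.image (fun q => Sum.inl (Sum.inl (q.1 : G))) ∪
      l.image (fun q => Sum.inr ⟨p, q.2⟩)
    have hF : (F : Set (UU G)) ⊆ cl S := by
      intro z hz
      rcases Finset.mem_union.mp (Finset.mem_coe.mp hz) with h | h
      · obtain ⟨q, hq, rfl⟩ := Finset.mem_image.mp h
        exact (hGM' _).mp (hl q hq).2.1
      · obtain ⟨q, hq, rfl⟩ := Finset.mem_image.mp h
        exact (hCM _ _).mp (hl q hq).2.2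
    have h1 := c7 F hF ⟨p, l⟩ (by
      intro q hq
      exact ⟨Finset.mem_union_left _ (Finset.mem_image_of_mem _ hq),
        Finset.mem_union_right _ (Finset.mem_image_of_mem
          (fun q : center G × (G → ZMod p) => (Sum.inr ⟨p, q.2⟩ : UU G)) hq)⟩) hp
      (fun q hq => (hl q hq).1)
    rcases h1 with ⟨φ, h1, h2, h3⟩ | ⟨F', h1, h2⟩
    · exact Or.inl ⟨φ, (hQM' φ).mpr ⟨h1, h2⟩, h3⟩
    · exact Or.inr ⟨F', fun x hx => (hGM' x).mpr (h1 x hx), h2⟩
  · intro p s hs s' hs'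
    rw [hCM] at hs ⊢
    exact (c8 {Sum.inr ⟨p, s⟩} (by simpa using hs) ⟨p, s⟩ (by simp)).1 s' hs'
  · intro p s hs x hx
    rw [hCM] at hs
    rw [hGM']
    exact (c8 {Sum.inr ⟨p, s⟩} (by simpa using hs) ⟨p, s⟩ (by simp)).2 x hx

end Pool.Agent.TOM
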