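import Mathlib
import Pool.Agent.TOM.Cl
set_option autoImplicit false

/-!
# The induction on cardinals
-/

namespace Pool.Agent.TOM
open Subgroup Cardinal Pool.Agent.Hhelper87.FC

universe u

variable {G : Type u} [Group G]

theorem fam_of_decomp (hFC : IsFC G) (Dt : Dat G)
    (Op : (p : ℕ) → (G → ZMod p) → Set (G → ZMod p))
    (Lb : (p : ℕ) → (G → ZMod p) → Set G)
    (hOp : ∀ p s, (Op p s).Countable) (hLb : ∀ p s, (Lb p s).Countable)
    (hdec : ∀ (GM : Subgroup G) (QM : Subgroup (MulAut G))
      (CM : (p : ℕ) → Submodule (ZMod p) (G → ZMod p)), ClosedTriple Dt Op Lb GM QM CM →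
      ∀ P' : Subgroup (MulAut G), P' ≤ Qh G → QM ≤ P' →
      ∃ L : Subgroup (MulAut G), L ≤ P' ∧ QM ⊓ L = ⊥ ∧
        (∀ ψ ∈ P', ∃ φ ∈ QM, ∃ l ∈ L, ψ = φ * l) ∧ ∀ p ∈ QM, ∀ l ∈ L, l * p = p * l) :
    Fam (center G) := by
  classical
  obtain ⟨cl, hcl1, hcl2, hcl3, hcl4, hcl5⟩ := exists_cl_triple hFC Dt Op Lb hOp hLb
  choose GM QM CM hGM hQM hM using hcl5
  have hQmono : ∀ {T T' : Set (UU G)}, T ⊆ T' → QM T ≤ QM T' := by
    intro T T' hT φ hφ
    rw [hQM] at hφ ⊢
    exact ⟨hφ.1, hcl2 _ _ hT hφ.2⟩
  have hQQ : ∀ S, QM S ≤ Qh G := fun S => (hM S).pair.QM_le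
  have key : ∀ κ : Cardinal.{u}, ∀ S : Set (UU G), #S = κ →
      Fam (⊥ : Subgroup (QM S)) := by
    intro κ
    induction κ using WellFoundedLT.induction with
    | ind κ ih =>
      intro S hS
      rcases le_or_gt κ ℵ₀ with hκ | hκ
      · -- countable
        have hSc : S.Countable := by
          rw [← Cardinal.le_aleph0_iff_set_countable, hS]
          exact hκ
        have h1 := hcl3 _ hSc
        have h2 : Countable (cl S) := h1.to_subtype
        let f : QM S → cl S := fun φ => ⟨Sum.inl (Sum.inr φ.1), ((hQM _ _).mp φ.2).2⟩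
        have hf : Function.Injective f := by
          intro φ ψ h
          apply Subtype.ext
          exact Sum.inr_injective (Sum.inl_injective (congrArg Subtype.val h))
        exact hall hf.countable (isFC_of_le_Qh (hQQ S)) (torsion_of_le_Qh (hQQ S))
          (residuallyFinite_of_le_Qh hFC (hQQ S))
      · -- uncountable
        let I : Type u := κ.ord.ToType
        have hI : #I = #S := by rw [mk_ord_toType, hS]
        obtain ⟨s⟩ := Cardinal.eq.mp hI
        have hIne : Nonempty I := by
          rw [← mk_ne_zero_iff, mk_ord_toType]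
          intro h0
          rw [h0] at hκ
          exact absurd hκ (not_lt.mpr zero_le)
        have hcount : ∀ i : I, #(Set.Iic i) < κ := by
          intro i
          have h1 : #(Set.Iio i) < κ := by
            have := mk_Iio_lt i (by simp [I])
            simpa [I] using this
          have h2 : Set.Iic i = Set.Iio i ∪ {i} := by
            ext j
            simp [le_iff_lt_or_eq]
          rw [h2]
          refine lt_of_le_of_lt (mk_union_le _ _) ?_
          refine add_lt_of_lt hκ.le h1 ?_
          rw [mk_singleton]
          exact lt_of_lt_of_le one_lt_aleph0 hκ.le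
        let Si : I → Set (UU G) := fun i => (fun j => (s j).1) '' Set.Iic i
        let S' : I → Set (UU G) := fun i => (fun j => (s j).1) '' Set.Iio i
        have hSicard : ∀ i, #(Si i) < κ := fun i => lt_of_le_of_lt mk_image_le (hcount i)
        have hS'S : ∀ i, S' i ⊆ Si i := fun i => Set.image_mono Set.Iio_subset_Iic_self
        have hSS' : ∀ {i j : I}, j < i → Si j ⊆ S' i := fun {i j} hij =>
          Set.image_mono (Set.Iic_subset_Iio.mpr hij)
        let Pp : I → Subgroup (MulAut G) := fun i => QM (Si i)
        let Pm : I → Subgroup (MulAut G) := fun i => if ∃ j, j < i then QM (S' i) else ⊥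
        have hbound : ∀ (i : I), (∃ j, j < i) → ∀ F : Finset (UU G),
            (F : Set (UU G)) ⊆ S' i →
            ∃ j, j < i ∧ (F : Set (UU G)) ⊆ Si j := by
          intro i hi F
          induction F using Finset.induction_on with
          | empty =>
            intro _
            obtain ⟨j, hj⟩ := hi
            exact ⟨j, hj, by simp⟩
          | insert a F ha ih =>
            intro hF
            rw [Finset.coe_insert] at hF
            obtain ⟨j, hj, hjF⟩ := ih (fun x hx => hF (Or.inr hx))
            obtain ⟨k, hk, hka⟩ := hF (Or.inl rfl)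
            refine ⟨max j k, max_lt hj hk, ?_⟩
            rw [Finset.coe_insert]
            rintro x (rfl | hx)
            · exact ⟨k, le_max_right j k, hka⟩
            · exact (Set.image_mono (Set.Iic_subset_Iic.mpr (le_max_left j k))) (hjF hx)
        have hbound2 : ∀ F : Finset (UU G), (F : Set (UU G)) ⊆ S →
            ∃ j, (F : Set (UU G)) ⊆ Si j := by
          intro F
          induction F using Finset.induction_on with
          | empty =>
            intro _
            obtain ⟨j⟩ := hIne
            exact ⟨j, by simp⟩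
          | insert a F ha ih =>
            intro hF
            rw [Finset.coe_insert] at hF
            obtain ⟨j, hjF⟩ := ih (fun x hx => hF (Or.inr hx))
            have haS : a ∈ S := hF (Or.inl rfl)
            obtain ⟨k, hk⟩ := s.surjective ⟨a, haS⟩
            refine ⟨max j k, ?_⟩
            rw [Finset.coe_insert]
            rintro x (rfl | hx)
            · exact ⟨k, Set.mem_Iic.mpr (le_max_right j k), by simp only [hk]⟩
            · exact (Set.image_mono (Set.Iic_subset_Iic.mpr (le_max_left j k))) (hjF hx)
        have hPm : ∀ i x, x ∈ Pm i ↔ x = 1 ∨ ∃ j, j < i ∧ x ∈ Pp j := by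
          intro i x
          by_cases hi : ∃ j, j < i
          · have h1 : Pm i = QM (S' i) := if_pos hi
            rw [h1]
            constructor
            · intro hx
              right
              rw [hQM] at hx
              obtain ⟨F, hF, hxF⟩ := hcl4 _ _ hx.2
              obtain ⟨j, hj, hjF⟩ := hbound i hi F hF
              exact ⟨j, hj, (hQM _ _).mpr ⟨hx.1, hcl2 _ _ hjF hxF⟩⟩
            · rintro (rfl | ⟨j, hj, hx⟩)
              · exact one_mem _
              · exact hQmono (hSS' hj) hx
          · have h1 : Pm i = ⊥ := if_neg hi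
            rw [h1, mem_bot]
            constructor
            · exact fun h => Or.inl h
            · rintro (h | ⟨j, hj, -⟩)
              · exact h
              · exact absurd ⟨j, hj⟩ hi
        have hPpQ : ∀ i, Pp i ≤ Qh G := fun i => hQQ _
        have hL : ∀ i, ∃ L : Subgroup (MulAut G), L ≤ Pp i ∧ Pm i ⊓ L = ⊥ ∧
            (∀ ψ ∈ Pp i, ∃ φ ∈ Pm i, ∃ l ∈ L, ψ = φ * l) ∧
            ∀ p ∈ Pm i, ∀ l ∈ L, l * p = p * l := by
          intro i
          by_cases hi : ∃ j, j < i
          · have h1 : Pm i = QM (S' i) := if_pos hi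
            rw [h1]
            exact hdec _ _ _ (hM (S' i)) (Pp i) (hPpQ i) (hQmono (hS'S i))
          · have h1 : Pm i = ⊥ := if_neg hi
            rw [h1]
            refine ⟨Pp i, le_rfl, by simp, ?_, ?_⟩
            · exact fun ψ hψ => ⟨1, one_mem _, ψ, hψ, by simp⟩
            · intro p hp l _
              rw [mem_bot] at hp
              rw [hp]
              simp
        choose L hL1 hL2 hL3 hL4 using hL
        have hfam : ∀ i, Fam (⊥ : Subgroup (L i)) := by
          intro i
          have h1 := ih _ (hSicard i) (Si i) rfl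
          have h2 := h1.comap (Subgroup.inclusion (hL1 i))
          have h3 : (⊥ : Subgroup (QM (Si i))).comap (Subgroup.inclusion (hL1 i)) = ⊥ := by
            rw [MonoidHom.comap_bot]
            exact (MonoidHom.ker_eq_bot_iff _).mpr (Subgroup.inclusion_injective (hL1 i))
          rw [h3] at h2
          exact h2
        have hf : ∀ h : QM S, ∃ i, (QM S).subtype h ∈ Pp i := by
          intro h
          have h1 := (hQM _ _).mp h.2
          obtain ⟨F, hF, hxF⟩ := hcl4 _ _ h1.2
          obtain ⟨j, hjF⟩ := hbound2 F hF
          exact ⟨j, (hQM _ _).mpr ⟨h1.1, hcl2 _ _ hjF hxF⟩⟩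
        have hfinal := assembly (QM S).subtype hPm hL1 hL3 hL2 hL4 hf hfam
        rw [ker_subtype] at hfinal
        exact hfinal
  -- conclusion
  let S : Set (UU G) := Set.range (fun x => Sum.inl (Sum.inl x))
  have hconj : ∀ g : G, MulAut.conj g ∈ QM S := by
    intro g
    apply (hM S).pair.conj
    rw [hGM]
    exact hcl1 _ ⟨g, rfl⟩
  let f : G →* QM S := (MulAut.conj : G →* MulAut G).codRestrict (QM S) hconj
  have h1 := (key _ S rfl).comap f
  have h2 : (⊥ : Subgroup (QM S)).comap f = center G := by
    rw [MonoidHom.comap_bot, ← conj_ker]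
    ext g
    rw [MonoidHom.mem_ker, MonoidHom.mem_ker]
    constructor
    · intro h
      exact congrArg Subtype.val h
    · intro h
      exact Subtype.ext h
  rw [h2] at h1
  exact h1

end Pool.Agent.TOM
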