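import Mathlib
import Pool.Agent.Hhelper87.FC.Kulikov
set_option autoImplicit false

/-!
# The relative Kulikov criterion in its socle form
-/

namespace Pool.Agent.TOM
open Subgroup Pool.Agent.Hhelper87.FC

section chain
variable {Y : Type*} [CommGroup Y]

theorem exists_max_chain' (e : ℕ → ℕ) (hdvd : ∀ n, e n ∣ e (n + 1))
    (Yn : ℕ → Subgroup Y) (hmono : Monotone Yn)
    (hdis : ∀ n, ∀ x ∈ Yn n, ∀ c : Y, x = c ^ e n → x = 1) :
    ∃ X : ℕ → Subgroup Y, Monotone X ∧ (∀ n, Yn n ≤ X n) ∧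
      (∀ n, ∀ x ∈ X n, ∀ c : Y, x = c ^ e n → x = 1) ∧
      (∀ n, ∀ y : Y, y ∉ X n → ∃ x ∈ X n, ∃ i : ℤ, ∃ c : Y,
        x * y ^ i = c ^ e n ∧ x * y ^ i ≠ 1) := by
  classical
  let 𝒞 : Set (ℕ → Subgroup Y) :=
    {X | Monotone X ∧ ∀ n, ∀ x ∈ X n, ∀ c : Y, x = c ^ e n → x = 1}
  obtain ⟨X, hYX, hXmax⟩ := zorn_le_nonempty₀ 𝒞 (by
    intro c hc hchain y hy
    have hmem : ∀ (n : ℕ) (x : Y), x ∈ (⨆ Z : c, Z.1 n) ↔ ∃ Z ∈ c, x ∈ Z n := by
      intro n x
      have : Nonempty c := ⟨⟨y, hy⟩⟩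
      have hdir : Directed (· ≤ ·) (fun Z : c => Z.1 n) := by
        intro Z Z'
        rcases hchain.total Z.2 Z'.2 with h | h
        · exact ⟨Z', h n, le_rfl⟩
        · exact ⟨Z, le_rfl, h n⟩
      rw [mem_iSup_of_directed hdir]
      simp
    refine ⟨fun n => ⨆ Z : c, Z.1 n, ⟨?_, ?_⟩, ?_⟩
    · intro n n' hn
      exact iSup_mono (fun Z => (hc Z.2).1 hn)
    · intro n x hx c' hxc
      obtain ⟨Z, hZ, hxZ⟩ := (hmem n x).mp hx
      exact (hc hZ).2 n x hxZ c' hxc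
    · intro Z hZ n
      exact le_iSup (fun Z : c => Z.1 n) ⟨Z, hZ⟩) Yn ⟨hmono, hdis⟩
  have hX1 : Monotone X := hXmax.prop.1
  have hX2 := hXmax.prop.2
  refine ⟨X, hX1, hYX, hX2, ?_⟩
  by_contra hcon
  push Not at hcon
  obtain ⟨n0, y, hy, hbad⟩ := hcon
  let Bad : ℕ → Prop := fun m => y ∉ X m ∧
    ∀ x ∈ X m, ∀ i : ℤ, ∀ c : Y, x * y ^ i = c ^ e m → x * y ^ i = 1
  have hBad0 : Bad n0 := ⟨hy, hbad⟩
  have hexm : ∃ m, Bad m ∧ ¬ Bad (m + 1) := by
    by_contra hno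
    push Not at hno
    have hall : ∀ t, Bad (n0 + t) := by
      intro t
      induction t with
      | zero => exact hBad0
      | succ t ih => exact hno _ ih
    let X' : ℕ → Subgroup Y := fun n => if n0 ≤ n then X n ⊔ zpowers y else X n
    have hX'1 : ∀ n, n0 ≤ n → X' n = X n ⊔ zpowers y := fun n hn => if_pos hn
    have hX'2 : ∀ n, ¬ n0 ≤ n → X' n = X n := fun n hn => if_neg hn
    have hXX' : X ≤ X' := by
      intro n
      by_cases hn : n0 ≤ n
      · rw [hX'1 n hn]; exact le_sup_left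
      · rw [hX'2 n hn]
    have hX'C : X' ∈ 𝒞 := by
      constructor
      · intro n n' hnn
        by_cases hn : n0 ≤ n
        · rw [hX'1 n hn, hX'1 n' (hn.trans hnn)]
          exact sup_le_sup_right (hX1 hnn) _
        · rw [hX'2 n hn]
          exact (hX1 hnn).trans (hXX' n')
      · intro n x hx c hxc
        by_cases hn : n0 ≤ n
        · rw [hX'1 n hn] at hx
          obtain ⟨x0, hx0, z, hz, rfl⟩ := mem_sup.mp hx
          obtain ⟨j, rfl⟩ := mem_zpowers_iff.mp hz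
          obtain ⟨t, rfl⟩ := Nat.exists_eq_add_of_le hn
          exact (hall t).2 x0 hx0 j c hxc
        · rw [hX'2 n hn] at hx
          exact hX2 n x hx c hxc
    have h1 := hXmax.le_of_ge hX'C hXX'
    apply hy
    apply h1 n0
    rw [hX'1 n0 le_rfl]
    exact mem_sup_right (mem_zpowers y)
  obtain ⟨m, ⟨hm1, hm2⟩, hm3⟩ := hexm
  -- find y'
  have hy' : ∃ y' : Y, y' ∉ X m ∧ y' ∈ X (m + 1) ∧
      ∀ x ∈ X m, ∀ j : ℤ, ∀ c : Y, x * y' ^ j = c ^ e m → x * y' ^ j = 1 := by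
    by_cases hyX : y ∈ X (m + 1)
    · exact ⟨y, hm1, hyX, hm2⟩
    · have h1 : ∃ x1 ∈ X (m + 1), ∃ i : ℤ, ∃ c : Y, x1 * y ^ i = c ^ e (m + 1) ∧
          x1 * y ^ i ≠ 1 := by
        by_contra h
        push Not at h
        exact hm3 ⟨hyX, h⟩
      obtain ⟨x1, hx1, i, c, hc, hne⟩ := h1
      obtain ⟨q, hq⟩ := hdvd m
      have hy'eq : x1⁻¹ = y ^ i * (c ^ e (m + 1))⁻¹ := by rw [← hc]; group
      have hce : c ^ e (m + 1) = (c ^ q) ^ e m := by rw [hq, ← pow_mul, mul_comm q]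
      refine ⟨x1⁻¹, ?_, inv_mem hx1, ?_⟩
      · intro hin
        apply hne
        have h2 : (x1⁻¹)⁻¹ * y ^ i = (c ^ q) ^ e m := by rw [inv_inv, hc, hce]
        have h3 := hm2 _ (inv_mem hin) i _ h2
        rwa [inv_inv] at h3
      · intro x hx j c' hxc
        have h2 : x * y ^ (i * j) = (c' * (c ^ q) ^ j) ^ e m := by
          have h4 : x * y ^ (i * j) = x * (x1⁻¹) ^ j * (c ^ e (m + 1)) ^ j := by
            rw [hy'eq, mul_zpow, zpow_mul, inv_zpow]
            group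
          have h5 : ((c ^ q) ^ j) ^ e m = (c ^ e (m + 1)) ^ j := by
            rw [hce, ← zpow_natCast, ← zpow_mul, mul_comm j, zpow_mul, zpow_natCast]
          rw [h4, hxc, mul_pow, h5]
        have h3 := hm2 x hx (i * j) _ h2
        have h6 : (c ^ e (m + 1)) ^ j = (x1 ^ j) * x⁻¹ := by
          have h7 : (c ^ e (m + 1)) ^ j = x1 ^ j * y ^ (i * j) := by
            rw [← hc, mul_zpow, zpow_mul]
          have h8 : y ^ (i * j) = x⁻¹ := by
            rw [eq_inv_iff_mul_eq_one, mul_comm]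
            exact h3
          rw [h7, h8]
        have h9 : (c ^ e (m + 1)) ^ j ∈ X (m + 1) := by
          rw [h6]
          exact mul_mem (zpow_mem hx1 j) (inv_mem (hX1 (Nat.le_succ m) hx))
        have h10 : (c ^ e (m + 1)) ^ j = (c ^ j) ^ e (m + 1) := by
          rw [← zpow_natCast, ← zpow_mul, mul_comm, zpow_mul, zpow_natCast]
        have h11 : (c ^ e (m + 1)) ^ j = 1 := hX2 _ _ h9 _ h10
        rw [h6] at h11
        rw [inv_zpow]
        rw [mul_inv_eq_one] at h11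
        rw [h11, mul_inv_cancel]
  obtain ⟨y', hy1, hy2, hy3⟩ := hy'
  let X' : ℕ → Subgroup Y := fun n => if n = m then X m ⊔ zpowers y' else X n
  have hX'm : X' m = X m ⊔ zpowers y' := if_pos rfl
  have hX'n : ∀ n, n ≠ m → X' n = X n := fun n hn => if_neg hn
  have hXX' : X ≤ X' := by
    intro n
    by_cases hn : n = m
    · subst hn; rw [hX'm]; exact le_sup_left
    · rw [hX'n n hn]
  have hX'C : X' ∈ 𝒞 := by
    constructor
    · apply monotone_nat_of_le_succ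
      intro n
      by_cases hn : n = m
      · subst hn
        rw [hX'm, hX'n (n + 1) (by omega)]
        exact sup_le (hX1 (Nat.le_succ n)) (by rw [zpowers_le]; exact hy2)
      · rw [hX'n n hn]
        exact (hX1 (Nat.le_succ n)).trans (hXX' (n + 1))
    · intro n x hx c hxc
      by_cases hn : n = m
      · subst hn
        rw [hX'm] at hx
        obtain ⟨x0, hx0, z, hz, rfl⟩ := mem_sup.mp hx
        obtain ⟨j, rfl⟩ := mem_zpowers_iff.mp hz
        exact hy3 x0 hx0 j c hxc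
      · rw [hX'n n hn] at hx
        exact hX2 n x hx c hxc
  have h1 := hXmax.le_of_ge hX'C hXX'
  have h2 : y' ∈ X m := by
    apply h1 m
    rw [hX'm]
    exact mem_sup_right (mem_zpowers y')
  exact hy1 h2

/-- Joins of `p`-torsion subgroups for finitely many primes. -/
theorem sup_primes (P : Finset ℕ) : (∀ p ∈ P, p.Prime) → ∀ (T : ℕ → Subgroup Y) (n : ℕ),
    (∀ p ∈ P, ∀ x ∈ T p, x ^ p = 1) →
    (∀ p ∈ P, ∀ x ∈ T p, ∀ c : Y, x = c ^ (p ^ n) → x = 1) →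
    ∀ e : ℕ, (∀ p ∈ P, p ^ n ∣ e) → ∀ x ∈ ⨆ p ∈ P, T p, ∀ c : Y, x = c ^ e → x = 1 := by
  classical
  induction P using Finset.induction_on with
  | empty =>
    intro _ T n _ _ e _ x hx c _
    simpa using hx
  | insert p P hp ih =>
    intro hP T n hT1 hT2 e he x hx c hxc
    rw [Finset.iSup_insert] at hx
    obtain ⟨z, hz, x', hx', rfl⟩ := mem_sup.mp hx
    have hpp : p.Prime := hP p (Finset.mem_insert_self _ _)
    set N := ∏ q ∈ P, q with hN
    have hcop : Nat.Coprime N p := by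
      rw [hN]
      apply Nat.Coprime.prod_left
      intro q hq
      refine (Nat.coprime_primes (hP q (Finset.mem_insert_of_mem hq)) hpp).mpr ?_
      rintro rfl
      exact hp hq
    have hx'N : x' ^ N = 1 := by
      have h1 : (⨆ q ∈ P, T q) ≤ (powMonoidHom N : Y →* Y).ker := by
        apply iSup₂_le
        intro q hq y hy
        rw [MonoidHom.mem_ker, powMonoidHom_apply]
        obtain ⟨t, ht⟩ := Finset.dvd_prod_of_mem (fun q => q) hq
        rw [hN, ht, pow_mul, hT1 q (Finset.mem_insert_of_mem hq) y hy, one_pow]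
      exact h1 hx'
    obtain ⟨m', q, hm'⟩ := exists_inverse_mod hpp.one_lt hcop
    have hz1 : z ^ p = 1 := hT1 p (Finset.mem_insert_self _ _) z hz
    have h2 : z = (z * x') ^ (N * m') := by
      rw [mul_pow, pow_inverse_mod hm' hz1, pow_mul, hx'N, one_pow, mul_one]
    obtain ⟨t, ht⟩ := he p (Finset.mem_insert_self _ _)
    have h3 : z = (c ^ (t * (N * m'))) ^ (p ^ n) := by
      rw [h2, hxc, ← pow_mul, ← pow_mul, ht]
      congr 1
      ring
    have h4 : z = 1 := hT2 p (Finset.mem_insert_self _ _) z hz _ h3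
    rw [h4, one_mul] at hxc ⊢
    exact ih (fun q hq => hP q (Finset.mem_insert_of_mem hq)) T n
      (fun q hq => hT1 q (Finset.mem_insert_of_mem hq))
      (fun q hq => hT2 q (Finset.mem_insert_of_mem hq)) e
      (fun q hq => he q (Finset.mem_insert_of_mem hq)) x' hx' c hxc

end chain

section compl
variable {A : Type*} [CommGroup A]

/-- The relative Kulikov criterion, socle form, all primes at the same time. -/
theorem kulikov_socle (htor : ∀ a : A, IsOfFinOrder a) {B : Subgroup A} (hpure : PureS B)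
    (S : ℕ → ℕ → Subgroup A) (hmono : ∀ p, Monotone (S p))
    (hcov : ∀ p, p.Prime → ∀ a : A, a ^ p = 1 → ∃ n, a ∈ S p n)
    (hsep : ∀ p, p.Prime → ∀ n, ∀ z ∈ S p n, z ^ p = 1 → ∀ c ∈ B, c ^ p = 1 → ∀ y : A,
      z = c * y ^ (p ^ n) → z ∈ B) :
    ∃ H : Subgroup A, B ⊓ H = ⊥ ∧ B ⊔ H = ⊤ := by
  classical
  let e : ℕ → ℕ := fun n => n.factorial ^ n
  have he : ∀ n, 0 < e n := fun n => Nat.pow_pos n.factorial_pos
  have hdvd : ∀ n, e n ∣ e (n + 1) := by
    intro n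
    exact (pow_dvd_pow_of_dvd (Nat.factorial_dvd_factorial (Nat.le_succ n)) n).trans
      (pow_dvd_pow _ (Nat.le_succ n))
  have hpe : ∀ n p, p.Prime → p ≤ n → p ^ n ∣ e n := fun n p hp hpn =>
    pow_dvd_pow_of_dvd (Nat.dvd_factorial hp.pos hpn) n
  let T : ℕ → ℕ → Subgroup (A ⧸ B) := fun n p =>
    ((S p n) ⊓ (powMonoidHom p : A →* A).ker).map (QuotientGroup.mk' B)
  have hTmem : ∀ n p (x : A ⧸ B), x ∈ T n p ↔ ∃ z ∈ S p n, z ^ p = 1 ∧ ((z : A) : A ⧸ B) = x := by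
    intro n p x
    constructor
    · rintro ⟨z, ⟨h1, h2⟩, h3⟩
      have h2' : z ∈ (powMonoidHom p : A →* A).ker := h2
      rw [MonoidHom.mem_ker, powMonoidHom_apply] at h2'
      exact ⟨z, h1, h2', h3⟩
    · rintro ⟨z, h1, h2, h3⟩
      have h2' : z ∈ (powMonoidHom p : A →* A).ker := by
        rw [MonoidHom.mem_ker, powMonoidHom_apply]
        exact h2
      exact ⟨z, ⟨h1, h2'⟩, h3⟩
  let P : ℕ → Finset ℕ := fun n => (Finset.range (n + 1)).filter Nat.Prime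
  have hP : ∀ n p, p ∈ P n ↔ p.Prime ∧ p ≤ n := by
    intro n p
    simp only [P, Finset.mem_filter, Finset.mem_range]
    constructor
    · rintro ⟨h1, h2⟩; exact ⟨h2, by omega⟩
    · rintro ⟨h1, h2⟩; exact ⟨by omega, h1⟩
  let Yn : ℕ → Subgroup (A ⧸ B) := fun n => ⨆ p ∈ P n, T n p
  have hYmono : Monotone Yn := by
    intro n n' hn
    apply iSup₂_le
    intro p hp
    have hp' : p ∈ P n' := (hP n' p).mpr ⟨((hP n p).mp hp).1, ((hP n p).mp hp).2.trans hn⟩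
    have h1 : T n p ≤ T n' p := map_mono (inf_le_inf_right _ (hmono p hn))
    exact h1.trans (le_iSup₂_of_le p hp' le_rfl)
  have hYsoc : ∀ p, p.Prime → ∀ y : A ⧸ B, y ^ p = 1 → ∃ n, y ∈ Yn n := by
    intro p hp y hy
    obtain ⟨a, rfl⟩ := QuotientGroup.mk_surjective y
    have h1 : a ^ p ∈ B := by
      rw [← QuotientGroup.eq_one_iff]
      exact hy
    obtain ⟨b, hb, hbp⟩ := hpure p hp.pos _ h1 ⟨a, rfl⟩
    have h2 : (a * b⁻¹) ^ p = 1 := by rw [mul_pow, inv_pow, hbp, mul_inv_cancel]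
    obtain ⟨n, hn⟩ := hcov p hp _ h2
    refine ⟨max n p, ?_⟩
    have h3 : p ∈ P (max n p) := (hP _ p).mpr ⟨hp, le_max_right n p⟩
    have h4 : ((a : A) : A ⧸ B) ∈ T (max n p) p := by
      refine (hTmem _ _ _).mpr ⟨a * b⁻¹, hmono p (le_max_left n p) hn, h2, ?_⟩
      apply QuotientGroup.eq.mpr
      have : (a * b⁻¹)⁻¹ * a = b := by
        rw [mul_inv, inv_inv, mul_comm a⁻¹, mul_assoc, inv_mul_cancel, mul_one]
      rw [this]
      exact hb
    have h5 : T (max n p) p ≤ Yn (max n p) :=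
      le_iSup₂_of_le (f := fun q (_ : q ∈ P (max n p)) => T (max n p) q) p h3 le_rfl
    exact h5 h4
  have hT1 : ∀ n p, ∀ x ∈ T n p, x ^ p = 1 := by
    intro n p x hx
    obtain ⟨z, -, hz, rfl⟩ := (hTmem n p x).mp hx
    have h1 : ((z : A) : A ⧸ B) ^ p = ((z ^ p : A) : A ⧸ B) := rfl
    rw [h1, hz]
    rfl
  have hT2 : ∀ n p, p.Prime → ∀ x ∈ T n p, ∀ c : A ⧸ B, x = c ^ (p ^ n) → x = 1 := by
    intro n p hp x hx c hc
    obtain ⟨z, hz1, hz2, rfl⟩ := (hTmem n p x).mp hx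
    obtain ⟨y, rfl⟩ := QuotientGroup.mk_surjective c
    have h2 : (y ^ (p ^ n))⁻¹ * z ∈ B := QuotientGroup.eq.mp hc.symm
    set c := (y ^ (p ^ n))⁻¹ * z with hcdef
    have h3 : z = c * y ^ (p ^ n) := by
      rw [hcdef, mul_comm (y ^ (p ^ n))⁻¹, mul_assoc, inv_mul_cancel, mul_one]
    -- `c ^ p` is a `p ^ (n + 1)`-th power
    have h4 : (y⁻¹) ^ (p ^ (n + 1)) = c ^ p := by
      rw [hcdef, mul_pow, hz2, mul_one, inv_pow, inv_pow, ← pow_mul, pow_succ]
    obtain ⟨b, hb, hbp⟩ := hpure (p ^ (n + 1)) (Nat.pow_pos hp.pos) _ (pow_mem h2 p) ⟨_, h4⟩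
    have h5 : (c * (b ^ (p ^ n))⁻¹) ^ p = 1 := by
      rw [mul_pow, inv_pow, ← pow_mul, ← pow_succ, hbp, mul_inv_cancel]
    have h6 : z = (c * (b ^ (p ^ n))⁻¹) * (y * b) ^ (p ^ n) := by
      rw [mul_pow, h3]
      rw [mul_comm (y ^ (p ^ n)) (b ^ (p ^ n)), ← mul_assoc, inv_mul_cancel_right]
    have h7 := hsep p hp n z hz1 hz2 _ (mul_mem h2 (inv_mem (pow_mem hb _))) h5 _ h6
    exact (QuotientGroup.eq_one_iff _).mpr h7
  have hYdis : ∀ n, ∀ x ∈ Yn n, ∀ c : A ⧸ B, x = c ^ e n → x = 1 := by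
    intro n
    exact sup_primes (P n) (fun p hp => ((hP n p).mp hp).1) (T n) n
      (fun p _ => hT1 n p) (fun p hp => hT2 n p ((hP n p).mp hp).1) (e n)
      (fun p hp => hpe n p ((hP n p).mp hp).1 ((hP n p).mp hp).2)
  obtain ⟨X, hX1, hX2, hX3, hX4⟩ := exists_max_chain' e hdvd Yn hYmono hYdis
  have hXpure : ∀ n, PureS (X n) := fun n => high_pure (he n) (hX3 n) (hX4 n)
  have hXcov' : ∀ N : ℕ, 0 < N → ∀ y : A ⧸ B, y ^ N = 1 → ∃ n, y ∈ X n := by
    intro N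
    induction N using Nat.strong_induction_on with
    | _ N ih =>
      intro hN y hy
      by_cases hN1 : N = 1
      · subst hN1
        rw [pow_one] at hy
        exact ⟨0, by rw [hy]; exact one_mem _⟩
      obtain ⟨p, hp, N', hN'⟩ := Nat.exists_prime_and_dvd hN1
      have hN'pos : 0 < N' := by
        rcases Nat.eq_zero_or_pos N' with h | h
        · rw [h] at hN'; omega
        · exact h
      have hN'lt : N' < N := by
        rw [hN']
        calc N' = 1 * N' := (one_mul _).symm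
          _ < p * N' := Nat.mul_lt_mul_of_pos_right hp.one_lt hN'pos
      obtain ⟨n, hn⟩ := ih N' hN'lt hN'pos (y ^ p) (by rw [← pow_mul, ← hN', hy])
      obtain ⟨x, hx, hxp⟩ := hXpure n p hp.pos _ hn ⟨y, rfl⟩
      have h1 : (y * x⁻¹) ^ p = 1 := by rw [mul_pow, inv_pow, hxp, mul_inv_cancel]
      obtain ⟨n', hn'⟩ := hYsoc p hp _ h1
      refine ⟨max n n', ?_⟩
      have h2 := mul_mem (hX1 (le_max_right n n') (hX2 n' hn')) (hX1 (le_max_left n n') hx)
      rwa [inv_mul_cancel_right] at h2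
  have hXcov : ∀ y : A ⧸ B, ∃ n, y ∈ X n := by
    intro y
    obtain ⟨a, rfl⟩ := QuotientGroup.mk_surjective y
    obtain ⟨N, hN, haN⟩ := isOfFinOrder_iff_pow_eq_one.mp (htor a)
    refine hXcov' N hN _ ?_
    have : ((a ^ N : A) : A ⧸ B) = ((a : A) : A ⧸ B) ^ N := rfl
    rw [← this, haN]
    rfl
  let Bn : ℕ → Subgroup A := fun n => (X n).comap (QuotientGroup.mk' B)
  have hBn : ∀ n z, z ∈ Bn n ↔ ((z : A) : A ⧸ B) ∈ X n := fun n z => Iff.rfl
  have hBBn : ∀ n, B ≤ Bn n := by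
    intro n z hz
    rw [hBn, (QuotientGroup.eq_one_iff _).mpr hz]
    exact one_mem _
  have hBnmono : Monotone Bn := fun n n' hn => comap_mono (hX1 hn)
  have hBncov : ∀ a, ∃ n, a ∈ Bn n := fun a => hXcov (a : A ⧸ B)
  have hBnpure : ∀ n, PureS (Bn n) := by
    rintro n k hk b hb ⟨y, hy⟩
    obtain ⟨x, hx, hxk⟩ := hXpure n k hk _ ((hBn n b).mp hb) ⟨(y : A ⧸ B), by rw [← hy]; rfl⟩
    obtain ⟨x, rfl⟩ := QuotientGroup.mk_surjective x
    have h1 : (y * x⁻¹) ^ k ∈ B := by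
      rw [← QuotientGroup.eq_one_iff]
      have h2 : (((y * x⁻¹) ^ k : A) : A ⧸ B) = (y : A ⧸ B) ^ k * ((x : A ⧸ B) ^ k)⁻¹ := by
        rw [mul_pow, inv_pow]
        rfl
      rw [h2, hxk, ← hy]
      exact mul_inv_cancel _
    obtain ⟨b0, hb0, hb0k⟩ := hpure k hk _ h1 ⟨_, rfl⟩
    refine ⟨b0 * x, mul_mem (hBBn n hb0) hx, ?_⟩
    rw [mul_pow, hb0k, ← mul_pow, inv_mul_cancel_right, hy]
  have hBnexp : ∀ n, ∀ a ∈ Bn n, a ^ e n ∈ B := by
    intro n a ha
    rw [← QuotientGroup.eq_one_iff]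
    exact hX3 n _ (pow_mem ha (e n)) (a : A ⧸ B) rfl
  obtain ⟨K0, hK01, hK02⟩ := bounded_complement_rel htor (hBBn 0) hpure (he 0) (hBnexp 0)
  have hK : ∀ n, ∃ K : Subgroup A, Bn n ⊓ K = ⊥ ∧ Bn n ⊔ K = Bn (n + 1) := fun n =>
    bounded_complement_rel htor (hBnmono (Nat.le_succ n)) (hBnpure n) (he (n + 1))
      (fun a ha => hBBn n (hBnexp (n + 1) a ha))
  choose K hK1 hK2 using hK
  obtain ⟨Hn, hH0, hHs⟩ : ∃ Hn : ℕ → Subgroup A, Hn 0 = K0 ∧ ∀ n, Hn (n + 1) = Hn n ⊔ K n :=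
    ⟨fun n => Nat.rec (motive := fun _ => Subgroup A) K0 (fun n H => H ⊔ K n) n, rfl,
      fun _ => rfl⟩
  have hHn : ∀ n, B ⊓ Hn n = ⊥ ∧ B ⊔ Hn n = Bn n := by
    intro n
    induction n with
    | zero => rw [hH0]; exact ⟨hK01, hK02⟩
    | succ n ih =>
      rw [hHs]
      refine ⟨inf_sup_bot ih.1 (by rw [ih.2]; exact hK1 n), ?_⟩
      rw [← sup_assoc, ih.2, hK2]
  have hHmono : Monotone Hn := by
    apply monotone_nat_of_le_succ
    intro n
    rw [hHs]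
    exact le_sup_left
  have hdir : Directed (· ≤ ·) Hn := hHmono.directed_le
  refine ⟨⨆ n, Hn n, ?_, ?_⟩
  · rw [eq_bot_iff]
    rintro x ⟨hx1, hx2⟩
    obtain ⟨n, hn⟩ := (mem_iSup_of_directed hdir).mp hx2
    rw [← (hHn n).1]
    exact ⟨hx1, hn⟩
  · rw [eq_top_iff]
    intro x _
    obtain ⟨n, hn⟩ := hBncov x
    rw [← (hHn n).2] at hn
    exact (sup_le_sup_left (le_iSup Hn n) B) hn

end compl

end Pool.Agent.TOM
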