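import Mathlib
set_option autoImplicit false

/-!
Linear part of the positive answer to Tomkinson's question: commuting idempotents with countable
supports on a space of functions.
-/

namespace Pool.Agent.TOM
open Submodule

section
variable {K : Type*} [Field K] {V : Type*} [AddCommGroup V] [Module K V] {J : Type*}

/-- the function `s * v` -/
def ten (s : J → K) (v : V) : J → V := fun j => s j • v

theorem ten_apply (s : J → K) (v : V) (j : J) : ten s v j = s j • v := rfl

theorem ten_zero (v : V) : ten (0 : J → K) v = 0 := by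
  funext j
  simp [ten]

theorem ten_add (s s' : J → K) (v : V) : ten (s + s') v = ten s v + ten s' v := by
  funext j
  simp [ten, add_smul]

/-- The system of commuting idempotents. -/
structure Sys (E : V → ((J → K) →ₗ[K] (J → K))) : Prop where
  idem : ∀ t s, E t (E t s) = E t s
  comm : ∀ t u s, E t (E u s) = E u (E t s)
  count : ∀ s, {t | E t s ≠ 0}.Countable

/-- The space spanned by the `s * t` with `s` in the image of `E t` and in `R`. -/
def Qs (E : V → ((J → K) →ₗ[K] (J → K))) (R : Submodule K (J → K)) : Submodule K (J → V) :=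
  span K {w | ∃ (t : V) (s : J → K), E t s = s ∧ s ∈ R ∧ w = ten s t}

/-- stability -/
def Stab (E : V → ((J → K) →ₗ[K] (J → K))) (R : Submodule K (J → K)) : Prop :=
  ∀ t, ∀ s ∈ R, E t s ∈ R

/-- `w` has all its coefficient functions in `R` -/
def InT (R : Submodule K (J → K)) (w : J → V) : Prop :=
  ∀ l : V →ₗ[K] K, (fun j => l (w j)) ∈ R

/-- the coefficient functions of `w` for functionals vanishing on `V'` lie in `R` -/
def InF (R : Submodule K (J → K)) (V' : Submodule K V) (w : J → V) : Prop :=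
  ∀ l : V →ₗ[K] K, (∀ v ∈ V', l v = 0) → (fun j => l (w j)) ∈ R

variable {E : V → ((J → K) →ₗ[K] (J → K))}

theorem Qs_mono {R R' : Submodule K (J → K)} (h : R ≤ R') : Qs E R ≤ Qs E R' := by
  refine span_mono ?_
  rintro w ⟨t, s, h1, h2, h3⟩
  exact ⟨t, s, h1, h h2, h3⟩

theorem ten_mem_Qs {R : Submodule K (J → K)} {t : V} {s : J → K} (h1 : E t s = s) (h2 : s ∈ R) :
    ten s t ∈ Qs E R := subset_span ⟨t, s, h1, h2, rfl⟩

theorem InT_add {R : Submodule K (J → K)} {w w' : J → V} (h : InT R w) (h' : InT R w') :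
    InT R (w + w') := by
  intro l
  have h1 : (fun j => l ((w + w') j)) = (fun j => l (w j)) + (fun j => l (w' j)) := by
    funext j
    simp
  rw [h1]
  exact R.add_mem (h l) (h' l)

theorem InT_of_mem_Qs {R : Submodule K (J → K)} {w : J → V} (h : w ∈ Qs E R) : InT R w := by
  intro l
  induction h using span_induction with
  | mem w hw =>
    obtain ⟨t, s, -, h2, rfl⟩ := hw
    have h1 : (fun j => l (ten s t j)) = l t • s := by
      funext j
      simp [ten, mul_comm]
    rw [h1]
    exact R.smul_mem _ h2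
  | zero =>
    have h1 : (fun j => l ((0 : J → V) j)) = 0 := by
      funext j
      simp
    rw [h1]
    exact R.zero_mem
  | add x y _ _ hx hy =>
    have h1 : (fun j => l ((x + y) j)) = (fun j => l (x j)) + (fun j => l (y j)) := by
      funext j
      simp
    rw [h1]
    exact R.add_mem hx hy
  | smul c x _ hx =>
    have h1 : (fun j => l ((c • x) j)) = c • (fun j => l (x j)) := by
      funext j
      simp
    rw [h1]
    exact R.smul_mem _ hx

theorem InF_of_InT {R : Submodule K (J → K)} {V' : Submodule K V} {w : J → V} (h : InT R w) :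
    InF R V' w := fun l _ => h l

theorem InF_sub {R : Submodule K (J → K)} {V' : Submodule K V} {w w' : J → V} (h : InF R V' w)
    (h' : InF R V' w') : InF R V' (w - w') := by
  intro l hl
  have h1 : (fun j => l ((w - w') j)) = (fun j => l (w j)) - (fun j => l (w' j)) := by
    funext j
    simp
  rw [h1]
  exact R.sub_mem (h l hl) (h' l hl)

theorem InF_mono {R R' : Submodule K (J → K)} (hR : R ≤ R') {V' : Submodule K V} {w : J → V}
    (h : InF R V' w) : InF R' V' w := fun l hl => hR (h l hl)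

/-- dual functionals of a finite linearly independent set -/
theorem exists_dual (B : Finset V) (hB : LinearIndependent K (fun i : B => (i : V))) :
    ∃ l : B → (V →ₗ[K] K), ∀ v ∈ span K (B : Set V), v = ∑ i : B, l i v • (i : V) := by
  classical
  have hrange : Set.range (fun i : B => (i : V)) = (B : Set V) := by
    ext x
    simp
  let W := span K (Set.range (fun i : B => (i : V)))
  let bb : Module.Basis B K W := Module.Basis.span hB
  have hex : ∀ i : B, ∃ l : V →ₗ[K] K, l.comp W.subtype = bb.coord i := fun i =>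
    LinearMap.exists_extend (bb.coord i)
  choose l hl using hex
  refine ⟨l, fun v hv => ?_⟩
  have hvW : v ∈ W := by
    change v ∈ span K (Set.range (fun i : B => (i : V)))
    rw [hrange]
    exact hv
  have h1 := bb.sum_repr ⟨v, hvW⟩
  have h2 := congrArg (Subtype.val) h1
  have h3 : ∀ i : B, l i v = bb.repr ⟨v, hvW⟩ i := by
    intro i
    have := LinearMap.congr_fun (hl i) ⟨v, hvW⟩
    simpa using this
  simp only [h3]
  refine Eq.trans h2.symm ?_
  simp only [AddSubmonoidClass.coe_finsetSum, SetLike.val_smul]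
  refine Finset.sum_congr rfl (fun i _ => ?_)
  rw [Module.Basis.span_apply hB i]

/-- every element of `Qs` is an explicit finite sum -/
theorem exists_sum (R : Submodule K (J → K)) {w : J → V} (h : w ∈ Qs E R) :
    ∃ (F : Finset V) (s : V → J → K), (∀ t, E t (s t) = s t) ∧ (∀ t, s t ∈ R) ∧
      (∀ t, t ∉ F → s t = 0) ∧ w = ∑ t ∈ F, ten (s t) t := by
  classical
  induction h using span_induction with
  | mem w hw =>
    obtain ⟨t, s, h1, h2, rfl⟩ := hw
    refine ⟨{t}, fun u => if u = t then s else 0, ?_, ?_, ?_, ?_⟩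
    · intro u
      by_cases hu : u = t
      · subst hu
        simpa using h1
      · simp [hu]
    · intro u
      by_cases hu : u = t
      · simpa [hu] using h2
      · simp [hu]
    · intro u hu
      rw [Finset.mem_singleton] at hu
      simp [hu]
    · simp
  | zero => exact ⟨∅, fun _ => 0, by simp, by simp, by simp, by simp⟩
  | add x y _ _ hx hy =>
    obtain ⟨F, s, h1, h2, h3, rfl⟩ := hx
    obtain ⟨F', s', h1', h2', h3', rfl⟩ := hy
    refine ⟨F ∪ F', fun t => s t + s' t, ?_, ?_, ?_, ?_⟩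
    · intro t
      rw [map_add, h1, h1']
    · exact fun t => R.add_mem (h2 t) (h2' t)
    · intro t ht
      rw [Finset.mem_union, not_or] at ht
      change s t + s' t = 0
      rw [h3 t ht.1, h3' t ht.2, add_zero]
    · simp only [ten_add]
      rw [Finset.sum_add_distrib]
      congr 1
      · refine Finset.sum_subset Finset.subset_union_left (fun t _ ht => ?_)
        rw [h3 t ht, ten_zero]
      · refine Finset.sum_subset Finset.subset_union_right (fun t _ ht => ?_)
        rw [h3' t ht, ten_zero]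
  | smul c x _ hx =>
    obtain ⟨F, s, h1, h2, h3, rfl⟩ := hx
    refine ⟨F, fun t => c • s t, ?_, ?_, ?_, ?_⟩
    · intro t
      rw [map_smul, h1]
    · exact fun t => R.smul_mem _ (h2 t)
    · intro t ht
      change c • s t = 0
      rw [h3 t ht, smul_zero]
    · rw [Finset.smul_sum]
      refine Finset.sum_congr rfl (fun t _ => ?_)
      funext j
      simp [ten, mul_smul]

theorem lam_sum (l : V →ₗ[K] K) (F : Finset V) (s : V → J → K) :
    (fun j => l ((∑ t ∈ F, ten (s t) t) j)) = ∑ t ∈ F, l t • s t := by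
  funext j
  simp [ten, Finset.sum_apply, map_sum, mul_comm]

theorem good_aux [DecidableEq V] (hE : Sys E) {R : Submodule K (J → K)} (hR : Stab E R) :
    ∀ (F A : Finset V) (s : V → J → K), (∀ t ∈ F ∪ A, E t (s t) = s t) →
      (∀ u ∈ A, ∀ t ∈ F ∪ A, E u (s t) = s t) →
      InT R (∑ t ∈ F ∪ A, ten (s t) t) → (∑ t ∈ F ∪ A, ten (s t) t) ∈ Qs E R := by
  intro F
  induction F using Finset.induction_on with
  | empty =>
    intro A s h1 h2 h3
    rw [Finset.empty_union] at *
    obtain ⟨b, hbA, hbs, hbl⟩ := exists_linearIndependent K (A : Set V)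
    have hbfin : b.Finite := A.finite_toSet.subset hbA
    let B : Finset V := hbfin.toFinset
    have hB : (B : Set V) = b := by simp [B]
    have hBl : LinearIndependent K (fun i : B => (i : V)) := by
      have h4 : LinearIndependent K (fun i : ((B : Set V) : Type _) => (i : V)) := by
        rw [hB]
        exact hbl
      exact h4
    obtain ⟨l, hl⟩ := exists_dual B hBl
    have hval : ∀ j, (∑ t ∈ A, ten (s t) t) j ∈ span K (B : Set V) := by
      intro j
      rw [Finset.sum_apply]
      refine sum_mem (fun t ht => ?_)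
      refine smul_mem _ _ ?_
      rw [hB, hbs]
      exact subset_span ht
    have hw : (∑ t ∈ A, ten (s t) t) =
        ∑ i : B, ten (fun j => l i ((∑ t ∈ A, ten (s t) t) j)) (i : V) := by
      funext j
      exact (hl _ (hval j)).trans (Finset.sum_apply j Finset.univ
        (fun i : B => ten (fun j => l i ((∑ t ∈ A, ten (s t) t) j)) (i : V))).symm
    rw [hw]
    refine sum_mem (fun i _ => ten_mem_Qs ?_ (h3 _))
    have hiA : (i : V) ∈ A := by
      apply hbA
      rw [← hB]
      exact i.2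
    rw [lam_sum, map_sum]
    refine Finset.sum_congr rfl (fun t ht => ?_)
    rw [map_smul, h2 _ hiA t ht]
  | insert t0 F ht0 ih =>
    intro A s h1 h2 h3
    have hS : insert t0 F ∪ A = F ∪ insert t0 A := by
      ext x
      simp only [Finset.mem_union, Finset.mem_insert]
      tauto
    have hS2 : insert t0 F ∪ A = insert t0 (F ∪ A) := by
      ext x
      simp only [Finset.mem_union, Finset.mem_insert]
      tauto
    have e1 := ih (insert t0 A) (fun t => E t0 (s t)) (by
      intro t ht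
      rw [← hS] at ht
      change E t (E t0 (s t)) = E t0 (s t)
      rw [hE.comm, h1 t ht]) (by
      intro u hu t ht
      rw [← hS] at ht
      change E u (E t0 (s t)) = E t0 (s t)
      rcases Finset.mem_insert.mp hu with rfl | hu
      · exact hE.idem _ _
      · rw [hE.comm, h2 u hu t ht]) (by
      intro l
      rw [lam_sum]
      have h4 := hR t0 _ (h3 l)
      rw [lam_sum, hS, map_sum] at h4
      refine (congrArg (fun f => f ∈ R) ?_).mp h4
      refine Finset.sum_congr rfl (fun t _ => ?_)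
      rw [map_smul])
    have hzero : s t0 - E t0 (s t0) = 0 := by
      rw [h1 t0 (by simp), sub_self]
    have hsum2 : (∑ t ∈ insert t0 F ∪ A, ten (s t - E t0 (s t)) t) =
        ∑ t ∈ F ∪ A, ten (s t - E t0 (s t)) t := by
      rw [hS2]
      symm
      refine Finset.sum_subset (Finset.subset_insert _ _) (fun t ht ht' => ?_)
      rcases Finset.mem_insert.mp ht with rfl | h
      · rw [hzero, ten_zero]
      · exact absurd h ht'
    have hdec : (∑ t ∈ insert t0 F ∪ A, ten (s t) t) =
        (∑ t ∈ F ∪ insert t0 A, ten (E t0 (s t)) t) +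
          ∑ t ∈ F ∪ A, ten (s t - E t0 (s t)) t := by
      rw [← hsum2, ← hS, ← Finset.sum_add_distrib]
      refine Finset.sum_congr rfl (fun t _ => ?_)
      rw [← ten_add]
      congr 1
      abel
    have e2 := ih A (fun t => s t - E t0 (s t)) (by
      intro t ht
      have ht' : t ∈ insert t0 F ∪ A := by rw [hS2]; exact Finset.mem_insert_of_mem ht
      change E t (s t - E t0 (s t)) = s t - E t0 (s t)
      rw [map_sub, hE.comm, h1 t ht']) (by
      intro u hu t ht
      have ht' : t ∈ insert t0 F ∪ A := by rw [hS2]; exact Finset.mem_insert_of_mem ht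
      change E u (s t - E t0 (s t)) = s t - E t0 (s t)
      rw [map_sub, hE.comm, h2 u hu t ht']) (by
      intro l
      have h4 := h3 l
      have h5 := InT_of_mem_Qs e1 l
      rw [hdec] at h4
      have h6 := R.sub_mem h4 h5
      refine (congrArg (fun f => f ∈ R) ?_).mp h6
      funext j
      simp)
    rw [hdec]
    exact add_mem e1 e2

/-- Claim 2. -/
theorem good (hE : Sys E) {R : Submodule K (J → K)} (hR : Stab E R) {w : J → V}
    (hw : w ∈ Qs E ⊤) (hl : InT R w) : w ∈ Qs E R := by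
  classical
  obtain ⟨F, s, h1, -, -, rfl⟩ := exists_sum ⊤ hw
  have h := good_aux hE hR F ∅ s (fun t _ => h1 t) (by simp)
  rw [Finset.union_empty] at h
  exact h hl

/-- relative complements -/
theorem ext_compl {W : Type*} [AddCommGroup W] [Module K W] {D H N : Submodule K W}
    (hDH : D ≤ H) (hDN : D ⊓ N = ⊥) : ∃ D' : Submodule K W, D ≤ D' ∧ D' ≤ H ∧ D' ⊓ N = ⊥ ∧
      H ≤ D' ⊔ (H ⊓ N) := by
  obtain ⟨X, hX⟩ := Submodule.exists_isCompl ((D ⊔ (H ⊓ N)).comap H.subtype)
  have hdisj : ∀ x ∈ X.map H.subtype, x ∈ D ⊔ (H ⊓ N) → x = 0 := by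
    rintro _ ⟨x, hx, rfl⟩ h
    have h1 : x ∈ ((D ⊔ (H ⊓ N)).comap H.subtype) ⊓ X := ⟨h, hx⟩
    rw [hX.inf_eq_bot, mem_bot] at h1
    rw [h1, map_zero]
  refine ⟨D ⊔ X.map H.subtype, le_sup_left, ?_, ?_, ?_⟩
  · apply sup_le hDH
    rintro _ ⟨x, -, rfl⟩
    exact x.2
  · rw [eq_bot_iff]
    rintro y ⟨hy1, hy2⟩
    obtain ⟨d, hd, x, hx, rfl⟩ := mem_sup.mp hy1
    have hxH : x ∈ H := by
      obtain ⟨x, -, rfl⟩ := hx
      exact x.2
    have hx0 : x = 0 := by
      apply hdisj x hx
      have h1 : x = -d + (d + x) := by abel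
      rw [h1]
      exact add_mem (neg_mem (mem_sup_left hd)) (mem_sup_right ⟨add_mem (hDH hd) hxH, hy2⟩)
    rw [hx0, add_zero] at hy2 ⊢
    rw [← hDN]
    exact ⟨hd, hy2⟩
  · intro h hh
    have h1 : (⟨h, hh⟩ : H) ∈ ((D ⊔ (H ⊓ N)).comap H.subtype) ⊔ X := by
      rw [hX.sup_eq_top]
      exact mem_top
    obtain ⟨a, ha, x, hx, hax⟩ := mem_sup.mp h1
    have h2 : h = (a : W) + (x : W) := by
      have := congrArg Subtype.val hax
      exact this.symm
    rw [h2]
    have h3 : (a : W) ∈ D ⊔ (H ⊓ N) := ha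
    refine add_mem ?_ (mem_sup_left (mem_sup_right ⟨x, hx, rfl⟩))
    exact (sup_le_sup_right le_sup_left (H ⊓ N)) h3

/-- increasing complements -/
theorem exists_chain_compl {W : Type*} [AddCommGroup W] [Module K W] (H : ℕ → Submodule K W)
    (hH : Monotone H) (N : Submodule K W) : ∃ D : ℕ → Submodule K W, Monotone D ∧
      (∀ m, D m ≤ H m) ∧ (∀ m, D m ⊓ N = ⊥) ∧ ∀ m, H m ≤ D m ⊔ (H m ⊓ N) := by
  classical
  let P : ℕ → Type _ := fun m => {D : Submodule K W // D ≤ H m ∧ D ⊓ N = ⊥ ∧ H m ≤ D ⊔ (H m ⊓ N)}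
  have h0 : Nonempty (P 0) := by
    obtain ⟨D, -, h1, h2, h3⟩ := ext_compl (D := ⊥) (H := H 0) (N := N) bot_le (by simp)
    exact ⟨⟨D, h1, h2, h3⟩⟩
  obtain ⟨d0⟩ := h0
  have hs : ∀ m (D : P m), ∃ D' : P (m + 1), D.1 ≤ D'.1 := by
    intro m D
    obtain ⟨D', h0, h1, h2, h3⟩ := ext_compl (D := D.1) (H := H (m + 1)) (N := N)
      (D.2.1.trans (hH (Nat.le_succ m))) D.2.2.1
    exact ⟨⟨D', h1, h2, h3⟩, h0⟩
  choose nx hnx using hs
  let Ds : ∀ m, P m := fun m => Nat.rec d0 (fun m D => nx m D) m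
  have hsucc : ∀ m, Ds (m + 1) = nx m (Ds m) := fun _ => rfl
  refine ⟨fun m => (Ds m).1, ?_, fun m => (Ds m).2.1, fun m => (Ds m).2.2.1,
    fun m => (Ds m).2.2.2⟩
  apply monotone_nat_of_le_succ
  intro m
  change (Ds m).1 ≤ (Ds (m + 1)).1
  rw [hsucc]
  exact hnx m _

/-- functionals on `T` extend by zero to `V'` -/
theorem exists_ext {T V' : Submodule K V} (h : T ⊓ V' = ⊥) (l : V →ₗ[K] K) :
    ∃ l' : V →ₗ[K] K, (∀ v ∈ V', l' v = 0) ∧ ∀ v ∈ T, l' v = l v := by
  obtain ⟨X, h1, -, h2, h3⟩ := ext_compl (D := T) (H := ⊤) (N := V') le_top h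
  have hc : IsCompl X V' := by
    refine ⟨disjoint_iff.mpr h2, codisjoint_iff.mpr ?_⟩
    rw [top_inf_eq] at h3
    exact top_le_iff.mp h3
  refine ⟨(l.comp X.subtype).comp (X.projectionOnto V' hc), fun v hv => ?_, fun v hv => ?_⟩
  · have h4 : X.projectionOnto V' hc v = 0 :=
      Submodule.projectionOnto_apply_right hc ⟨v, hv⟩
    rw [LinearMap.comp_apply, h4, map_zero]
  · have h4 : X.projectionOnto V' hc v = ⟨v, h1 hv⟩ :=
      Submodule.projectionOnto_apply_left hc ⟨v, h1 hv⟩
    rw [LinearMap.comp_apply, h4]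
    rfl

/-- the smallest stable submodule containing `r` -/
theorem exists_hull (E : V → ((J → K) →ₗ[K] (J → K))) (r : J → K) :
    ∃ O : Submodule K (J → K), Stab E O ∧ r ∈ O ∧
      ∀ P : Submodule K (J → K), Stab E P → r ∈ P → O ≤ P := by
  refine ⟨sInf {O | Stab E O ∧ r ∈ O}, ?_, ?_, ?_⟩
  · intro t s hs
    rw [Submodule.mem_sInf] at hs ⊢
    exact fun P hP => hP.1 t s (hs P hP)
  · rw [Submodule.mem_sInf]
    exact fun P hP => hP.2
  · exact fun P h1 h2 => sInf_le ⟨h1, h2⟩

/-- finite dimensional exhaustion of a countable set adapted to the filtration -/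
theorem exists_T (Th : Set V) (hTh : Th.Countable) (Vm : ℕ → Submodule K V) (hV : Antitone Vm)
    (hfin : ∀ W : Submodule K V, FiniteDimensional K W → ∃ m, W ⊓ Vm m = ⊥) :
    ∃ T : ℕ → Submodule K V, Monotone T ∧ (∀ m, T m ⊓ Vm m = ⊥) ∧ ∀ t ∈ Th, ∃ m, t ∈ T m := by
  classical
  have hne : (Th ∪ {0}).Nonempty := ⟨0, by simp⟩
  obtain ⟨th, hth⟩ := (hTh.union (Set.countable_singleton 0)).exists_eq_range hne
  let W : ℕ → Submodule K V := fun k => span K (((Finset.range k).image th : Finset V) : Set V)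
  have hWmono : Monotone W := by
    intro a b hab
    apply span_mono
    exact_mod_cast Finset.image_subset_image (Finset.range_mono hab)
  have hW0 : W 0 = ⊥ := by simp [W]
  let P : ℕ → ℕ → Prop := fun m k => W k ⊓ Vm m = ⊥
  have hP0 : ∀ m, P m 0 := by
    intro m
    change W 0 ⊓ Vm m = ⊥
    rw [hW0, bot_inf_eq]
  let g : ℕ → ℕ := fun m => Nat.findGreatest (P m) m
  have hg : ∀ m, P m (g m) := fun m => Nat.findGreatest_spec (Nat.zero_le m) (hP0 m)
  have hanti : ∀ k m m', m ≤ m' → P m k → P m' k := by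
    intro k m m' hm h
    change W k ⊓ Vm m' = ⊥
    rw [eq_bot_iff]
    have h' : W k ⊓ Vm m = ⊥ := h
    rw [← h']
    exact inf_le_inf_left _ (hV hm)
  refine ⟨fun m => W (g m), ?_, hg, ?_⟩
  · apply monotone_nat_of_le_succ
    intro m
    apply hWmono
    apply Nat.le_findGreatest
    · exact (Nat.findGreatest_le m).trans (Nat.le_succ m)
    · exact hanti _ _ _ (Nat.le_succ m) (hg m)
  · intro t ht
    have h1 : t ∈ Set.range th := by
      rw [← hth]
      exact Or.inl ht
    obtain ⟨i, rfl⟩ := h1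
    obtain ⟨m, hm⟩ := hfin (W (i + 1)) (FiniteDimensional.span_finset K _)
    refine ⟨max (i + 1) m, ?_⟩
    have h2 : i + 1 ≤ g (max (i + 1) m) :=
      Nat.le_findGreatest (le_max_left _ _) (hanti _ _ _ (le_max_right _ _) hm)
    apply hWmono h2
    apply subset_span
    simp only [Finset.coe_image, Finset.coe_range]
    exact ⟨i, by simp, rfl⟩

/-- The states of the Zorn argument. -/
structure Stt (E : V → ((J → K) →ₗ[K] (J → K))) (R0 : Submodule K (J → K))
    (Vm : ℕ → Submodule K V) (R : Submodule K (J → K)) (S : ℕ → Submodule K (J → V)) : Prop where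
  le : R0 ≤ R
  stab : Stab E R
  mono : Monotone S
  cov : ∀ t s, E t s = s → s ∈ R → ∃ m, ten s t ∈ S m
  sub : ∀ m, S m ≤ Qs E R
  sep : ∀ m w, w ∈ S m → InF R0 (Vm m) w → InT R0 w

variable {R0 : Submodule K (J → K)} {Vm : ℕ → Submodule K V}

theorem Stt.cov_all {R : Submodule K (J → K)} {S : ℕ → Submodule K (J → V)}
    (h : Stt E R0 Vm R S) {w : J → V} (hw : w ∈ Qs E R) : ∃ m, w ∈ S m := by
  induction hw using span_induction with
  | mem w hw =>
    obtain ⟨t, s, h1, h2, rfl⟩ := hw
    exact h.cov t s h1 h2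
  | zero => exact ⟨0, zero_mem _⟩
  | add x y _ _ hx hy =>
    obtain ⟨m, hm⟩ := hx
    obtain ⟨m', hm'⟩ := hy
    exact ⟨max m m', add_mem (h.mono (le_max_left _ _) hm) (h.mono (le_max_right _ _) hm')⟩
  | smul c x _ hx =>
    obtain ⟨m, hm⟩ := hx
    exact ⟨m, smul_mem _ _ hm⟩

theorem step (hE : Sys E) (hV : Antitone Vm)
    (hfin : ∀ W : Submodule K V, FiniteDimensional K W → ∃ m, W ⊓ Vm m = ⊥)
    {R : Submodule K (J → K)} {S : ℕ → Submodule K (J → V)}
    (h : Stt E R0 Vm R S) (r : J → K) : ∃ (R' : Submodule K (J → K))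
      (S' : ℕ → Submodule K (J → V)), Stt E R0 Vm R' S' ∧ R ≤ R' ∧ (∀ m, S m ≤ S' m) ∧
        r ∈ R' := by
  classical
  obtain ⟨O, hO1, hO2, hO3⟩ := exists_hull E r
  have hOz : ∀ s ∈ O, ∀ t, E t r = 0 → E t s = 0 := by
    let P : Submodule K (J → K) :=
      { carrier := {s | ∀ t, E t r = 0 → E t s = 0}
        zero_mem' := fun t _ => map_zero _
        add_mem' := by
          intro a b ha hb t ht
          rw [map_add, ha t ht, hb t ht, add_zero]
        smul_mem' := by
          intro c a ha t ht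
          rw [map_smul, ha t ht, smul_zero] }
    have hP : O ≤ P := by
      apply hO3
      · intro u s hs t ht
        rw [hE.comm, hs t ht, map_zero]
      · exact fun t ht => ht
    exact fun s hs => hP hs
  obtain ⟨T, hT1, hT2, hT3⟩ := exists_T {t | E t r ≠ 0} (hE.count r) Vm hV hfin
  have hR'stab : Stab E (R ⊔ O) := by
    intro t s hs
    obtain ⟨a, ha, o, ho, rfl⟩ := mem_sup.mp hs
    rw [map_add]
    exact add_mem (mem_sup_left (h.stab t a ha)) (mem_sup_right (hO1 t o ho))
  let H : ℕ → Submodule K (J → V) := fun m =>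
    Qs E (R ⊔ O) ⊓ Submodule.pi Set.univ (fun _ => T m)
  have hHmem : ∀ m w, w ∈ H m ↔ w ∈ Qs E (R ⊔ O) ∧ ∀ j, w j ∈ T m := by
    intro m w
    simp [H]
  have hHmono : Monotone H := by
    intro m m' hm w hw
    rw [hHmem] at hw ⊢
    exact ⟨hw.1, fun j => hT1 hm (hw.2 j)⟩
  obtain ⟨D, hD1, hD2, hD3, hD4⟩ := exists_chain_compl H hHmono (Qs E R)
  have hRR : Qs E R ≤ Qs E (R ⊔ O) := Qs_mono le_sup_left
  refine ⟨R ⊔ O, fun m => S m ⊔ D m, ?_, le_sup_left, fun m => le_sup_left, mem_sup_right hO2⟩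
  have hmono : Monotone (fun m => S m ⊔ D m) := fun m m' hm =>
    sup_le_sup (h.mono hm) (hD1 hm)
  refine ⟨h.le.trans le_sup_left, hR'stab, hmono, ?_, ?_, ?_⟩
  · intro t s hts hs
    obtain ⟨a, ha, o, ho, rfl⟩ := mem_sup.mp hs
    have h1 : ten (a + o) t = ten (E t a) t + ten (E t o) t := by
      rw [← ten_add, ← map_add, hts]
    obtain ⟨m, hm⟩ := h.cov t (E t a) (hE.idem t a) (h.stab t a ha)
    have h2 : ∃ m', ten (E t o) t ∈ S m' ⊔ D m' := by
      by_cases ht : E t r = 0
      · rw [hOz o ho t ht, ten_zero]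
        exact ⟨0, zero_mem _⟩
      · obtain ⟨m', hm'⟩ := hT3 t ht
        have h3 : ten (E t o) t ∈ H m' := by
          rw [hHmem]
          refine ⟨ten_mem_Qs (hE.idem t o) (mem_sup_right (hO1 t o ho)), fun j => ?_⟩
          exact smul_mem _ _ hm'
        obtain ⟨d, hd, q, hq, hdq⟩ := mem_sup.mp (hD4 m' h3)
        obtain ⟨m'', hm''⟩ := h.cov_all hq.2
        refine ⟨max m' m'', ?_⟩
        rw [← hdq]
        exact add_mem (mem_sup_right (hD1 (le_max_left _ _) hd))
          (mem_sup_left (h.mono (le_max_right _ _) hm''))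
    obtain ⟨m', hm'⟩ := h2
    refine ⟨max m m', ?_⟩
    rw [h1]
    exact add_mem (mem_sup_left (h.mono (le_max_left _ _) hm)) (hmono (le_max_right _ _) hm')
  · intro m
    exact sup_le ((h.sub m).trans hRR) ((hD2 m).trans inf_le_left)
  · intro m w hw hF
    obtain ⟨a, ha, d, hd, rfl⟩ := mem_sup.mp hw
    have haR : InF R (Vm m) a := InF_of_InT (InT_of_mem_Qs (h.sub m ha))
    have hdR : InF R (Vm m) d := by
      have h1 := InF_sub (InF_mono h.le hF) haR
      rwa [add_sub_cancel_left] at h1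
    have hdH := (hHmem m d).mp (hD2 m hd)
    have hdT : InT R d := by
      intro l
      obtain ⟨l', hl1, hl2⟩ := exists_ext (hT2 m) l
      have h2 : (fun j => l (d j)) = (fun j => l' (d j)) := by
        funext j
        rw [hl2 _ (hdH.2 j)]
      rw [h2]
      exact hdR l' hl1
    have hdQ : d ∈ Qs E R := good hE h.stab (Qs_mono le_top hdH.1) hdT
    have hd0 : d = 0 := by
      have h3 : d ∈ D m ⊓ Qs E R := ⟨hd, hdQ⟩
      rwa [hD3 m, mem_bot] at h3
    rw [hd0, add_zero] at hF ⊢
    exact h.sep m a ha hF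

/-- Theorem (3) of note 3208. -/
theorem main_lin (hE : Sys E) (hV : Antitone Vm)
    (hfin : ∀ W : Submodule K V, FiniteDimensional K W → ∃ m, W ⊓ Vm m = ⊥)
    (hR0 : Stab E R0) : ∃ S : ℕ → Submodule K (J → V), Monotone S ∧
      (∀ t s, E t s = s → ∃ m, ten s t ∈ S m) ∧
      ∀ m w, w ∈ S m → InF R0 (Vm m) w → InT R0 w := by
  classical
  let X := {x : Submodule K (J → K) × (ℕ → Submodule K (J → V)) // Stt E R0 Vm x.1 x.2}
  have h0 : Stt E R0 Vm R0 (fun _ => Qs E R0) :=
    { le := le_rfl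
      stab := hR0
      mono := fun _ _ _ => le_rfl
      cov := fun t s h1 h2 => ⟨0, ten_mem_Qs h1 h2⟩
      sub := fun _ => le_rfl
      sep := fun _ w hw _ => InT_of_mem_Qs hw }
  let x0 : X := ⟨(R0, fun _ => Qs E R0), h0⟩
  obtain ⟨x, hx⟩ : ∃ x : X, IsMax x := by
    apply zorn_le
    intro c hc
    rcases Set.eq_empty_or_nonempty c with rfl | hne
    · exact ⟨x0, by simp [mem_upperBounds]⟩
    have : Nonempty c := hne.to_subtype
    have hdir : Directed (· ≤ ·) (fun y : c => y.1.1) := by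
      intro a b
      rcases hc.total a.2 b.2 with h | h
      · exact ⟨b, h, le_rfl⟩
      · exact ⟨a, le_rfl, h⟩
    have hdir1 : Directed (· ≤ ·) (fun y : c => y.1.1.1) := by
      intro a b
      obtain ⟨z, h1, h2⟩ := hdir a b
      exact ⟨z, h1.1, h2.1⟩
    have hdir2 : ∀ m, Directed (· ≤ ·) (fun y : c => y.1.1.2 m) := by
      intro m a b
      obtain ⟨z, h1, h2⟩ := hdir a b
      exact ⟨z, h1.2 m, h2.2 m⟩
    have hst : Stt E R0 Vm (⨆ y : c, y.1.1.1) (fun m => ⨆ y : c, y.1.1.2 m) := by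
      refine ⟨?_, ?_, ?_, ?_, ?_, ?_⟩
      · obtain ⟨y⟩ := this
        exact y.1.2.le.trans (le_iSup (fun y : c => y.1.1.1) y)
      · intro t s hs
        obtain ⟨y, hy⟩ := (mem_iSup_of_directed _ hdir1).mp hs
        exact (mem_iSup_of_directed _ hdir1).mpr ⟨y, y.1.2.stab t s hy⟩
      · intro m m' hm
        exact iSup_mono (fun y => y.1.2.mono hm)
      · intro t s hts hs
        obtain ⟨y, hy⟩ := (mem_iSup_of_directed _ hdir1).mp hs
        obtain ⟨m, hm⟩ := y.1.2.cov t s hts hy
        exact ⟨m, (mem_iSup_of_directed _ (hdir2 m)).mpr ⟨y, hm⟩⟩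
      · intro m
        apply iSup_le
        intro y
        exact (y.1.2.sub m).trans (Qs_mono (le_iSup (fun y : c => y.1.1.1) y))
      · intro m w hw hF
        obtain ⟨y, hy⟩ := (mem_iSup_of_directed _ (hdir2 m)).mp hw
        exact y.1.2.sep m w hy hF
    refine ⟨⟨(_, _), hst⟩, ?_⟩
    intro y hy
    exact ⟨le_iSup (fun y : c => y.1.1.1) ⟨y, hy⟩,
      fun m => le_iSup (fun y : c => y.1.1.2 m) ⟨y, hy⟩⟩
  obtain ⟨⟨R, S⟩, hRS⟩ := x
  have htop : ∀ r, r ∈ R := by
    intro r
    obtain ⟨R', S', h1, h2, h3, h4⟩ := step hE hV hfin hRS r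
    have h5 := hx (b := ⟨(R', S'), h1⟩) ⟨h2, h3⟩
    exact h5.1 h4
  exact ⟨S, hRS.mono, fun t s hts => hRS.cov t s hts (htop s), hRS.sep⟩

end
end Pool.Agent.TOM
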