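import Mathlib
import Pool.Agent.TOM.Lin
set_option autoImplicit false

/-!
Decomposition of the space of functions on a set with bounded label sets.
-/

namespace Pool.Agent.TOM
open Submodule

section
variable (K : Type*) [Field K] {τ J : Type*}

/-- functions supported in all the sets `T t`, `t ∈ e` -/
def Cs (T : τ → Set J) (e : Finset τ) : Submodule K (J → K) where
  carrier := {s | ∀ j, s j ≠ 0 → ∀ t ∈ e, j ∈ T t}
  zero_mem' := fun j h => absurd rfl h
  add_mem' := by
    intro a b ha hb j h t ht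
    by_cases h1 : a j = 0
    · refine hb j (fun h2 => h ?_) t ht
      rw [Pi.add_apply, h1, h2, add_zero]
    · exact ha j h1 t ht
  smul_mem' := by
    intro c a ha j h t ht
    refine ha j (fun h1 => h ?_) t ht
    rw [Pi.smul_apply, h1, smul_zero]

/-- functions in `Cs e` whose support is hit by a finite set of labels outside `e` -/
def Cpl (T : τ → Set J) (e : Finset τ) : Submodule K (J → K) where
  carrier := {s | s ∈ Cs K T e ∧ ∃ F : Finset τ, (∀ t ∈ F, t ∉ e) ∧ ∀ j, s j ≠ 0 → ∃ t ∈ F, j ∈ T t}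
  zero_mem' := ⟨zero_mem _, ∅, by simp, fun j h => absurd rfl h⟩
  add_mem' := by
    classical
    rintro a b ⟨ha, F, hF1, hF2⟩ ⟨hb, F', hF1', hF2'⟩
    refine ⟨add_mem ha hb, F ∪ F', ?_, ?_⟩
    · intro t ht
      rcases Finset.mem_union.mp ht with h | h
      · exact hF1 t h
      · exact hF1' t h
    · intro j h
      by_cases h1 : a j = 0
      · have h2 : b j ≠ 0 := fun h2 => h (by rw [Pi.add_apply, h1, h2, add_zero])
        obtain ⟨t, ht, h3⟩ := hF2' j h2
        exact ⟨t, Finset.mem_union_right _ ht, h3⟩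
      · obtain ⟨t, ht, h3⟩ := hF2 j h1
        exact ⟨t, Finset.mem_union_left _ ht, h3⟩
  smul_mem' := by
    rintro c a ⟨ha, F, hF1, hF2⟩
    refine ⟨smul_mem _ _ ha, F, hF1, fun j h => hF2 j (fun h1 => h ?_)⟩
    rw [Pi.smul_apply, h1, smul_zero]

variable {K}

theorem mem_Cs {T : τ → Set J} {e : Finset τ} {s : J → K} :
    s ∈ Cs K T e ↔ ∀ j, s j ≠ 0 → ∀ t ∈ e, j ∈ T t := Iff.rfl

theorem mem_Cpl {T : τ → Set J} {e : Finset τ} {s : J → K} :
    s ∈ Cpl K T e ↔ s ∈ Cs K T e ∧
      ∃ F : Finset τ, (∀ t ∈ F, t ∉ e) ∧ ∀ j, s j ≠ 0 → ∃ t ∈ F, j ∈ T t := Iff.rfl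

theorem Cs_anti {T : τ → Set J} {e e' : Finset τ} (h : e ⊆ e') : Cs K T e' ≤ Cs K T e :=
  fun _ hs j hj t ht => hs j hj t (h ht)

/-- a choice of complements -/
structure IsDec (T : τ → Set J) (M : Finset τ → Submodule K (J → K)) : Prop where
  le : ∀ e, M e ≤ Cs K T e
  disj : ∀ e, M e ⊓ Cpl K T e = ⊥
  span : ∀ e, Cs K T e ≤ M e ⊔ Cpl K T e

theorem exists_dec (T : τ → Set J) (M0 : Finset τ → Submodule K (J → K))
    (h1 : ∀ e, M0 e ≤ Cs K T e) (h2 : ∀ e, M0 e ⊓ Cpl K T e = ⊥) :
    ∃ M, IsDec T M ∧ ∀ e, M0 e ≤ M e := by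
  have h := fun e => ext_compl (h1 e) (h2 e)
  choose M hM1 hM2 hM3 hM4 using h
  exact ⟨M, ⟨hM2, hM3, fun e => (hM4 e).trans (sup_le_sup_left inf_le_right _)⟩, hM1⟩

variable {T : τ → Set J} {M : Finset τ → Submodule K (J → K)}

theorem IsDec.indep (hM : IsDec T M) : iSupIndep M := by
  classical
  rw [iSupIndep_iff_finsetSum_eq_zero_imp_eq_zero]
  intro S v hv hsum
  by_contra hcon
  push Not at hcon
  obtain ⟨e1, he1, he1'⟩ := hcon
  have hne : (S.filter (fun e => v e ≠ 0)).Nonempty := ⟨e1, Finset.mem_filter.mpr ⟨he1, he1'⟩⟩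
  obtain ⟨e, he, hmin⟩ := (S.filter (fun e => v e ≠ 0)).exists_minimal hne
  obtain ⟨heS, hve⟩ := Finset.mem_filter.mp he
  have hex : ∀ e' : Finset τ, e' ∈ (S.filter (fun e => v e ≠ 0)).erase e → ∃ t, t ∈ e' ∧ t ∉ e := by
    intro e' he'
    obtain ⟨h1, h2⟩ := Finset.mem_erase.mp he'
    by_contra hc
    push Not at hc
    exact h1 (Finset.Subset.antisymm hc (hmin h2 hc))
  apply hve
  have hmem : v e ∈ M e ⊓ Cpl K T e := by
    refine ⟨hv e heS, hM.le e (hv e heS), (((S.filter (fun e => v e ≠ 0)).erase e).biUnion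
      id).filter (fun t => t ∉ e), ?_, ?_⟩
    · intro t ht
      exact (Finset.mem_filter.mp ht).2
    · intro j hj
      by_contra hc
      push Not at hc
      apply hj
      have h1 : ∀ e' ∈ S, e' ≠ e → v e' j = 0 := by
        intro e' he' hne'
        by_contra h2
        have h3 : e' ∈ (S.filter (fun e => v e ≠ 0)).erase e := by
          refine Finset.mem_erase.mpr ⟨hne', Finset.mem_filter.mpr ⟨he', ?_⟩⟩
          intro h4
          rw [h4] at h2
          exact h2 rfl
        obtain ⟨t, ht1, ht2⟩ := hex e' h3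
        exact hc t (Finset.mem_filter.mpr ⟨Finset.mem_biUnion.mpr ⟨e', h3, ht1⟩, ht2⟩)
          (hM.le e' (hv e' he') j h2 _ ht1)
      have h5 := congrFun hsum j
      rw [Finset.sum_apply, ← Finset.add_sum_erase _ _ heS] at h5
      rw [Finset.sum_eq_zero (fun e' he' => h1 e' (Finset.mem_of_mem_erase he')
        (Finset.ne_of_mem_erase he')), add_zero] at h5
      exact h5
  rw [hM.disj e, mem_bot] at hmem
  exact hmem

theorem IsDec.Cs_le (hM : IsDec T M) {n : ℕ}
    (hn : ∀ (j : J) (e : Finset τ), (∀ t ∈ e, j ∈ T t) → e.card ≤ n) (e : Finset τ) :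
    Cs K T e ≤ ⨆ (e' : Finset τ) (_ : e ⊆ e'), M e' := by
  classical
  suffices h : ∀ (k : ℕ) (e : Finset τ), n + 1 ≤ e.card + k →
      Cs K T e ≤ ⨆ (e' : Finset τ) (_ : e ⊆ e'), M e' from h (n + 1) e (Nat.le_add_left _ _)
  intro k
  induction k with
  | zero =>
    intro e he s hs
    have h1 : s = 0 := by
      funext j
      by_contra h2
      have := hn j e (hs j h2)
      omega
    rw [h1]
    exact zero_mem _
  | succ k ih =>
    intro e he s hs
    obtain ⟨m, hm, c, hc, rfl⟩ := mem_sup.mp (hM.span e hs)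
    refine add_mem (mem_iSup_of_mem e (mem_iSup_of_mem (Finset.Subset.refl e) hm)) ?_
    -- the part `c`
    have key : ∀ (F : Finset τ) (c : J → K), c ∈ Cs K T e → (∀ t ∈ F, t ∉ e) →
        (∀ j, c j ≠ 0 → ∃ t ∈ F, j ∈ T t) → c ∈ ⨆ (e' : Finset τ) (_ : e ⊆ e'), M e' := by
      intro F
      induction F using Finset.induction_on with
      | empty =>
        intro c _ _ h3
        have h4 : c = 0 := by
          funext j
          by_contra h5
          obtain ⟨t, ht, -⟩ := h3 j h5
          simp at ht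
        rw [h4]
        exact zero_mem _
      | insert t F ht ihF =>
        intro c h1 h2 h3
        let c1 : J → K := fun j => if j ∈ T t then c j else 0
        let c2 : J → K := fun j => if j ∈ T t then 0 else c j
        have hcc : c = c1 + c2 := by
          funext j
          by_cases hj : j ∈ T t <;> simp [c1, c2, hj]
        rw [hcc]
        refine add_mem ?_ ?_
        · have h4 : c1 ∈ Cs K T (insert t e) := by
            intro j hj u hu
            have hjT : j ∈ T t := by
              by_contra h5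
              exact hj (by simp [c1, h5])
            have hcj : c j ≠ 0 := by
              intro h5
              exact hj (by simp [c1, h5])
            rcases Finset.mem_insert.mp hu with rfl | hu
            · exact hjT
            · exact h1 j hcj u hu
          have hte : t ∉ e := h2 t (Finset.mem_insert_self _ _)
          have h5 := ih (insert t e) (by rw [Finset.card_insert_of_notMem hte]; omega) h4
          refine (iSup₂_le ?_ : (⨆ (e' : Finset τ) (_ : insert t e ⊆ e'), M e') ≤ _) h5
          intro e' he'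
          exact le_iSup₂_of_le e' ((Finset.subset_insert t e).trans he') le_rfl
        · apply ihF
          · intro j hj u hu
            apply h1 j _ u hu
            intro h5
            exact hj (by simp [c2, h5])
          · exact fun u hu => h2 u (Finset.mem_insert_of_mem hu)
          · intro j hj
            have hjT : j ∉ T t := by
              intro h5
              exact hj (by simp [c2, h5])
            have hcj : c j ≠ 0 := by
              intro h5
              exact hj (by simp [c2, h5])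
            obtain ⟨u, hu, hju⟩ := h3 j hcj
            rcases Finset.mem_insert.mp hu with rfl | hu
            · exact absurd hju hjT
            · exact ⟨u, hu, hju⟩
    obtain ⟨hc1, F, hF1, hF2⟩ := hc
    exact key F c hc1 hF1 hF2

theorem IsDec.iSup_eq (hM : IsDec T M) {n : ℕ}
    (hn : ∀ (j : J) (e : Finset τ), (∀ t ∈ e, j ∈ T t) → e.card ≤ n) : ⨆ e, M e = ⊤ := by
  rw [eq_top_iff]
  intro s _
  have h1 : s ∈ Cs K T (∅ : Finset τ) := fun j _ t ht => by simp at ht
  have h2 := hM.Cs_le hn ∅ h1
  refine (iSup₂_le ?_ : (⨆ (e' : Finset τ) (_ : ∅ ⊆ e'), M e') ≤ _) h2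
  intro e' _
  exact le_iSup M e'

/-- linear maps with prescribed restrictions to the summands -/
theorem exists_map {ι W N : Type*} [AddCommGroup W] [Module K W] [AddCommGroup N] [Module K N]
    {A : ι → Submodule K W} (h1 : iSupIndep A) (h2 : ⨆ i, A i = ⊤) (f : ∀ i, A i →ₗ[K] N) :
    ∃ F : W →ₗ[K] N, ∀ i (x : A i), F x = f i x := by
  classical
  have h := DirectSum.isInternal_submodule_of_iSupIndep_of_iSup_eq_top h1 h2
  let Φ := LinearEquiv.ofBijective (DirectSum.coeLinearMap A) h
  refine ⟨(DirectSum.toModule K ι N f).comp Φ.symm.toLinearMap, fun i x => ?_⟩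
  have h3 : Φ (DirectSum.lof K ι (fun i => A i) i x) = (x : W) := by
    exact DirectSum.coeLinearMap_lof A i x
  rw [LinearMap.comp_apply]
  have h4 : Φ.symm.toLinearMap (x : W) = DirectSum.lof K ι (fun i => A i) i x := by
    rw [← h3]
    exact Φ.symm_apply_apply _
  rw [h4, DirectSum.toModule_lof]

/-- The operators of the decomposition. -/
structure Ops (M : Finset τ → Submodule K (J → K)) (P : τ → (J → K) →ₗ[K] (J → K))
    (c : Finset τ → (J → K) →ₗ[K] (J → K)) : Prop where
  P_in : ∀ t e s, s ∈ M e → t ∈ e → P t s = s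
  P_out : ∀ t e s, s ∈ M e → t ∉ e → P t s = 0
  c_in : ∀ e s, s ∈ M e → c e s = s
  c_out : ∀ e e' s, s ∈ M e → e' ≠ e → c e' s = 0

theorem IsDec.exists_ops (hM : IsDec T M) {n : ℕ}
    (hn : ∀ (j : J) (e : Finset τ), (∀ t ∈ e, j ∈ T t) → e.card ≤ n) : ∃ P c, Ops M P c := by
  classical
  have h1 := hM.indep
  have h2 := hM.iSup_eq hn
  have hP : ∀ t, ∃ F : (J → K) →ₗ[K] (J → K), ∀ e (x : M e), F x = (if t ∈ e then
      (M e).subtype else 0 : M e →ₗ[K] (J → K)) x := fun t => exists_map h1 h2 _
  have hc : ∀ e', ∃ F : (J → K) →ₗ[K] (J → K), ∀ e (x : M e), F x = (if e' = e then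
      (M e).subtype else 0 : M e →ₗ[K] (J → K)) x := fun t => exists_map h1 h2 _
  choose P hP using hP
  choose c hc using hc
  refine ⟨P, c, ?_, ?_, ?_, ?_⟩
  · intro t e s hs ht
    have := hP t e ⟨s, hs⟩
    rw [if_pos ht] at this
    exact this
  · intro t e s hs ht
    have := hP t e ⟨s, hs⟩
    rw [if_neg ht] at this
    exact this
  · intro e s hs
    have := hc e e ⟨s, hs⟩
    rw [if_pos rfl] at this
    exact this
  · intro e e' s hs hne
    have := hc e' e ⟨s, hs⟩
    rw [if_neg hne] at this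
    exact this

variable {P : τ → (J → K) →ₗ[K] (J → K)} {c : Finset τ → (J → K) →ₗ[K] (J → K)}

theorem Ops.P_comm (h : Ops M P c) (htop : ⨆ e, M e = ⊤) (t u : τ) (s : J → K) :
    P t (P u s) = P u (P t s) := by
  have hs : s ∈ ⨆ e, M e := by rw [htop]; exact mem_top
  induction hs using Submodule.iSup_induction' with
  | mem e s hs =>
    by_cases h1 : t ∈ e
    · by_cases h2 : u ∈ e
      · rw [h.P_in u e s hs h2, h.P_in t e s hs h1, h.P_in u e s hs h2]
      · rw [h.P_out u e s hs h2, h.P_in t e s hs h1, h.P_out u e s hs h2, map_zero]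
    · by_cases h2 : u ∈ e
      · rw [h.P_in u e s hs h2, h.P_out t e s hs h1, map_zero]
      · rw [h.P_out u e s hs h2, h.P_out t e s hs h1, map_zero, map_zero]
  | zero => simp
  | add x y _ _ hx hy => simp only [map_add, hx, hy]

theorem Ops.P_idem (h : Ops M P c) (htop : ⨆ e, M e = ⊤) (t : τ) (s : J → K) :
    P t (P t s) = P t s := by
  have hs : s ∈ ⨆ e, M e := by rw [htop]; exact mem_top
  induction hs using Submodule.iSup_induction' with
  | mem e s hs =>
    by_cases h1 : t ∈ e
    · rw [h.P_in t e s hs h1, h.P_in t e s hs h1]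
    · rw [h.P_out t e s hs h1, map_zero]
  | zero => simp
  | add x y _ _ hx hy => simp only [map_add, hx, hy]

theorem Ops.P_mem (h : Ops M P c) (hM : IsDec T M) (htop : ⨆ e, M e = ⊤) (t : τ) (s : J → K) :
    P t s ∈ Cs K T {t} := by
  have hs : s ∈ ⨆ e, M e := by rw [htop]; exact mem_top
  induction hs using Submodule.iSup_induction' with
  | mem e s hs =>
    by_cases h1 : t ∈ e
    · rw [h.P_in t e s hs h1]
      exact Cs_anti (Finset.singleton_subset_iff.mpr h1) (hM.le e hs)
    · rw [h.P_out t e s hs h1]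
      exact zero_mem _
  | zero => rw [map_zero]; exact zero_mem _
  | add x y _ _ hx hy => rw [map_add]; exact add_mem hx hy

theorem Ops.P_eq (h : Ops M P c) (hM : IsDec T M) {n : ℕ}
    (hn : ∀ (j : J) (e : Finset τ), (∀ t ∈ e, j ∈ T t) → e.card ≤ n) {t : τ} {s : J → K}
    (hs : s ∈ Cs K T {t}) : P t s = s := by
  have h1 := hM.Cs_le hn _ hs
  have h2 : (⨆ (e' : Finset τ) (_ : {t} ⊆ e'), M e') ≤ LinearMap.eqLocus (P t) LinearMap.id := by
    apply iSup₂_le
    intro e he x hx
    rw [LinearMap.mem_eqLocus, LinearMap.id_apply]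
    exact h.P_in t e x hx (Finset.singleton_subset_iff.mp he)
  exact h2 h1

theorem Ops.c_mem (h : Ops M P c) (htop : ⨆ e, M e = ⊤) (e : Finset τ) (s : J → K) :
    c e s ∈ M e := by
  have hs : s ∈ ⨆ e, M e := by rw [htop]; exact mem_top
  induction hs using Submodule.iSup_induction' with
  | mem e' s hs =>
    by_cases h1 : e = e'
    · subst h1
      rw [h.c_in e s hs]
      exact hs
    · rw [h.c_out e' e s hs h1]
      exact zero_mem _
  | zero => rw [map_zero]; exact zero_mem _
  | add x y _ _ hx hy => rw [map_add]; exact add_mem hx hy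

theorem Ops.c_finite (h : Ops M P c) (htop : ⨆ e, M e = ⊤) (s : J → K) :
    {e | c e s ≠ 0}.Finite := by
  have hs : s ∈ ⨆ e, M e := by rw [htop]; exact mem_top
  induction hs using Submodule.iSup_induction' with
  | mem e' s hs =>
    refine (Set.finite_singleton e').subset ?_
    intro e he
    by_contra h1
    exact he (h.c_out e' e s hs h1)
  | zero => simp
  | add x y _ _ hx hy =>
    refine (hx.union hy).subset ?_
    intro e he
    by_contra h1
    rw [Set.mem_union, not_or] at h1
    apply he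
    have h2 : c e x = 0 := not_not.mp h1.1
    have h3 : c e y = 0 := not_not.mp h1.2
    rw [map_add, h2, h3, add_zero]

theorem Ops.P_finite (h : Ops M P c) (htop : ⨆ e, M e = ⊤) (s : J → K) :
    {t | P t s ≠ 0}.Finite := by
  have hs : s ∈ ⨆ e, M e := by rw [htop]; exact mem_top
  induction hs using Submodule.iSup_induction' with
  | mem e' s hs =>
    refine e'.finite_toSet.subset ?_
    intro t ht
    by_contra h1
    exact ht (h.P_out t e' s hs h1)
  | zero => simp
  | add x y _ _ hx hy =>
    refine (hx.union hy).subset ?_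
    intro e he
    by_contra h1
    rw [Set.mem_union, not_or] at h1
    apply he
    have h2 : P e x = 0 := not_not.mp h1.1
    have h3 : P e y = 0 := not_not.mp h1.2
    rw [map_add, h2, h3, add_zero]

theorem Ops.sum_c (h : Ops M P c) (htop : ⨆ e, M e = ⊤) (s : J → K) (S : Finset (Finset τ))
    (hS : ∀ e, c e s ≠ 0 → e ∈ S) : ∑ e ∈ S, c e s = s := by
  classical
  suffices h0 : ∀ s : J → K, ∃ S0 : Finset (Finset τ), ∀ S : Finset (Finset τ), S0 ⊆ S →
      ∑ e ∈ S, c e s = s by
    obtain ⟨S0, hS0⟩ := h0 s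
    have h1 := hS0 (S0 ∪ S) Finset.subset_union_left
    rw [← h1]
    conv_lhs => rw [h1]
    refine Finset.sum_subset Finset.subset_union_right (fun e _ he => ?_)
    by_contra h2
    exact he (hS e h2)
  intro s
  have hs : s ∈ ⨆ e, M e := by rw [htop]; exact mem_top
  induction hs using Submodule.iSup_induction' with
  | mem e' s hs =>
    refine ⟨{e'}, fun S hS => ?_⟩
    rw [Finset.sum_eq_single_of_mem e' (hS (Finset.mem_singleton_self _))
      (fun e _ hne => h.c_out e' e s hs hne)]
    exact h.c_in e' s hs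
  | zero => exact ⟨∅, fun S _ => by simp⟩
  | add x y _ _ hx hy =>
    obtain ⟨S1, h1⟩ := hx
    obtain ⟨S2, h2⟩ := hy
    refine ⟨S1 ∪ S2, fun S hS => ?_⟩
    simp only [map_add, Finset.sum_add_distrib]
    rw [h1 S (Finset.subset_union_left.trans hS), h2 S (Finset.subset_union_right.trans hS)]

end
end Pool.Agent.TOM
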