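import Mathlib
import Pool.Agent.TOM.Dec
set_option autoImplicit false

/-!
Levels and the total operators on the space of all functions.
-/

namespace Pool.Agent.TOM
open Submodule

section
variable {K : Type*} [Field K] {τ J : Type*}

/-- a level -/
abbrev Lev (ν : J → ℕ) (n : ℕ) : Type _ := {j : J // ν j = n}

/-- restriction to a level -/
def resL (K : Type*) [Field K] {J : Type*} (ν : J → ℕ) (n : ℕ) : (J → K) →ₗ[K] (Lev ν n → K) where
  toFun s := fun j => s j.1
  map_add' _ _ := rfl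
  map_smul' _ _ := rfl

/-- extension by zero from a level -/
noncomputable def extL (K : Type*) [Field K] {J : Type*} (ν : J → ℕ) (n : ℕ) :
    (Lev ν n → K) →ₗ[K] (J → K) where
  toFun r := fun j => if h : ν j = n then r ⟨j, h⟩ else 0
  map_add' a b := by
    funext j
    by_cases h : ν j = n
    · simp [h]
    · simp [h]
  map_smul' a b := by
    funext j
    by_cases h : ν j = n
    · simp [h]
    · simp [h]

/-- the label sets on a level -/
def TL (T : τ → Set J) (ν : J → ℕ) (n : ℕ) (t : τ) : Set (Lev ν n) := {j | j.1 ∈ T t}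

theorem resL_apply (ν : J → ℕ) (n : ℕ) (s : J → K) (j : Lev ν n) : resL K ν n s j = s j.1 := rfl

theorem extL_apply_pos (ν : J → ℕ) (n : ℕ) (r : Lev ν n → K) (j : J) (h : ν j = n) :
    extL K ν n r j = r ⟨j, h⟩ := dif_pos h

theorem extL_apply_neg (ν : J → ℕ) (n : ℕ) (r : Lev ν n → K) (j : J) (h : ν j ≠ n) :
    extL K ν n r j = 0 := dif_neg h

theorem resL_extL (ν : J → ℕ) (n : ℕ) (r : Lev ν n → K) : resL K ν n (extL K ν n r) = r := by
  funext j
  rw [resL_apply, extL_apply_pos ν n r j.1 j.2]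

theorem ext_resL {ν : J → ℕ} {s s' : J → K} (h : ∀ n, resL K ν n s = resL K ν n s') : s = s' := by
  funext j
  exact congrFun (h (ν j)) ⟨j, rfl⟩

/-- a choice of decompositions on all the levels -/
structure Glob (K : Type*) [Field K] {τ J : Type*} (T : τ → Set J) (ν : J → ℕ) where
  bound : ∀ (j : J) (e : Finset τ), (∀ t ∈ e, j ∈ T t) → e.card ≤ ν j
  M : (n : ℕ) → Finset τ → Submodule K (Lev ν n → K)
  dec : ∀ n, IsDec (TL T ν n) (M n)
  P : (n : ℕ) → τ → (Lev ν n → K) →ₗ[K] (Lev ν n → K)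
  c : (n : ℕ) → Finset τ → (Lev ν n → K) →ₗ[K] (Lev ν n → K)
  ops : ∀ n, Ops (M n) (P n) (c n)

theorem bound_lev {T : τ → Set J} {ν : J → ℕ}
    (hb : ∀ (j : J) (e : Finset τ), (∀ t ∈ e, j ∈ T t) → e.card ≤ ν j) (n : ℕ) :
    ∀ (j : Lev ν n) (e : Finset τ), (∀ t ∈ e, j ∈ TL T ν n t) → e.card ≤ n := by
  intro j e h
  have := hb j.1 e h
  rwa [j.2] at this

/-- there is a decomposition extending given partial ones -/
theorem exists_glob {T : τ → Set J} {ν : J → ℕ}
    (hb : ∀ (j : J) (e : Finset τ), (∀ t ∈ e, j ∈ T t) → e.card ≤ ν j)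
    (M0 : (n : ℕ) → Finset τ → Submodule K (Lev ν n → K))
    (h1 : ∀ n e, M0 n e ≤ Cs K (TL T ν n) e) (h2 : ∀ n e, M0 n e ⊓ Cpl K (TL T ν n) e = ⊥) :
    ∃ g : Glob K T ν, ∀ n e, M0 n e ≤ g.M n e := by
  have h := fun n => exists_dec (TL T ν n) (M0 n) (h1 n) (h2 n)
  choose M hM1 hM2 using h
  have h3 := fun n => (hM1 n).exists_ops (bound_lev hb n)
  choose P c hPc using h3
  exact ⟨⟨hb, M, hM1, P, c, hPc⟩, hM2⟩

variable {T : τ → Set J} {ν : J → ℕ} (g : Glob K T ν)

theorem Glob.top (n : ℕ) : ⨆ e, g.M n e = ⊤ := (g.dec n).iSup_eq (bound_lev g.bound n)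

/-- the total idempotent of a label -/
def Glob.E (t : τ) : (J → K) →ₗ[K] (J → K) where
  toFun s := fun j => g.P (ν j) t (resL K ν (ν j) s) ⟨j, rfl⟩
  map_add' a b := by
    funext j
    simp [map_add]
  map_smul' a b := by
    funext j
    simp [map_smul]

/-- the components -/
noncomputable def Glob.C (n : ℕ) (e : Finset τ) : (J → K) →ₗ[K] (J → K) :=
  (extL K ν n).comp ((g.c n e).comp (resL K ν n))

theorem Glob.resL_E (n : ℕ) (t : τ) (s : J → K) :
    resL K ν n (g.E t s) = g.P n t (resL K ν n s) := by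
  funext j
  obtain ⟨j, rfl⟩ := j
  rfl

theorem Glob.resL_C (n : ℕ) (e : Finset τ) (s : J → K) :
    resL K ν n (g.C n e s) = g.c n e (resL K ν n s) := resL_extL ν n _

theorem Glob.C_apply_neg (n : ℕ) (e : Finset τ) (s : J → K) (j : J) (h : ν j ≠ n) :
    g.C n e s j = 0 := extL_apply_neg ν n _ j h

theorem Glob.E_idem (t : τ) (s : J → K) : g.E t (g.E t s) = g.E t s := by
  apply ext_resL (ν := ν)
  intro n
  rw [g.resL_E, g.resL_E, (g.ops n).P_idem (g.top n)]

theorem Glob.E_comm (t u : τ) (s : J → K) : g.E t (g.E u s) = g.E u (g.E t s) := by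
  apply ext_resL (ν := ν)
  intro n
  rw [g.resL_E, g.resL_E, g.resL_E, g.resL_E, (g.ops n).P_comm (g.top n)]

theorem Glob.E_count (s : J → K) : {t | g.E t s ≠ 0}.Countable := by
  have h : {t | g.E t s ≠ 0} ⊆ ⋃ n, {t | g.P n t (resL K ν n s) ≠ 0} := by
    intro t ht
    by_contra hc
    apply ht
    apply ext_resL (ν := ν)
    intro n
    rw [g.resL_E, map_zero]
    by_contra h1
    exact hc (Set.mem_iUnion.mpr ⟨n, h1⟩)
  refine (Set.countable_iUnion (fun n => ?_)).mono h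
  exact ((g.ops n).P_finite (g.top n) _).countable

theorem Glob.C_count (s : J → K) : {x : ℕ × Finset τ | g.C x.1 x.2 s ≠ 0}.Countable := by
  have h : {x : ℕ × Finset τ | g.C x.1 x.2 s ≠ 0} ⊆
      ⋃ n, (Prod.mk n) '' {e | g.c n e (resL K ν n s) ≠ 0} := by
    rintro ⟨n, e⟩ ht
    refine Set.mem_iUnion.mpr ⟨n, e, ?_, rfl⟩
    intro h1
    apply ht
    change extL K ν n (g.c n e (resL K ν n s)) = 0
    rw [h1, map_zero]
  refine (Set.countable_iUnion (fun n => ?_)).mono h
  exact (((g.ops n).c_finite (g.top n) _).image _).countable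

theorem Glob.E_mem (t : τ) (s : J → K) (j : J) (h : g.E t s j ≠ 0) : j ∈ T t :=
  (g.ops (ν j)).P_mem (g.dec (ν j)) (g.top (ν j)) t (resL K ν (ν j) s) ⟨j, rfl⟩ h t
    (Finset.mem_singleton_self t)

theorem Glob.E_eq (t : τ) (s : J → K) (h : ∀ j, s j ≠ 0 → j ∈ T t) : g.E t s = s := by
  apply ext_resL (ν := ν)
  intro n
  rw [g.resL_E]
  refine (g.ops n).P_eq (g.dec n) (bound_lev g.bound n) ?_
  intro j hj u hu
  rw [Finset.mem_singleton] at hu
  subst hu
  exact h j.1 hj

end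

theorem Glob.sys {K : Type*} [Field K] {V : Type*} [AddCommGroup V] [Module K V] {J : Type*}
    {T : V → Set J} {ν : J → ℕ} (g : Glob K T ν) : Sys g.E :=
  ⟨g.E_idem, g.E_comm, g.E_count⟩

end Pool.Agent.TOM
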