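import Mathlib
import Pool.Agent.TOM.Lev
set_option autoImplicit false

/-!
Restriction to a subset carrying a closed subspace of functions.
-/

namespace Pool.Agent.TOM
open Submodule

section
variable {K : Type*} [Field K] {τ J : Type*}

/-- restriction of functions to a subset -/
def resH (K : Type*) [Field K] {J : Type*} (H : Set J) : (J → K) →ₗ[K] (H → K) where
  toFun s := fun j => s j.1
  map_add' _ _ := rfl
  map_smul' _ _ := rfl

theorem resH_apply (H : Set J) (s : J → K) (j : H) : resH K H s j = s j.1 := rfl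

/-- the closedness conditions -/
structure Clsd {T : τ → Set J} {ν : J → ℕ} (g : Glob K T ν) (H : Set J)
    (CM : Submodule K (J → K)) : Prop where
  sep : ∀ s ∈ CM, (∀ j ∈ H, s j = 0) → s = 0
  mulT : ∀ t, (∃ j ∈ H, j ∈ T t) → ∀ s ∈ CM, (T t).indicator s ∈ CM
  C_mem : ∀ n e, ∀ s ∈ CM, g.C n e s ∈ CM
  E_mem : ∀ t, ∀ s ∈ CM, g.E t s ∈ CM

variable {T : τ → Set J} {ν : J → ℕ} {g : Glob K T ν} {H : Set J} {CM : Submodule K (J → K)}

/-- the levels of a restriction -/
def resLH (ν : J → ℕ) (H : Set J) (n : ℕ) :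
    (Lev ν n → K) →ₗ[K] (Lev (fun j : H => ν j) n → K) where
  toFun s := fun j => s ⟨j.1.1, j.2⟩
  map_add' _ _ := rfl
  map_smul' _ _ := rfl

theorem resLH_resL (ν : J → ℕ) (H : Set J) (n : ℕ) (s : J → K) :
    resLH ν H n (resL K ν n s) = resL K (fun j : H => ν j) n (resH K H s) := rfl

/-- the functions of the subspace which are components of label `e` on level `n` -/
def Mcl (g : Glob K T ν) (CM : Submodule K (J → K)) (n : ℕ) (e : Finset τ) :
    Submodule K (J → K) where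
  carrier := {s | s ∈ CM ∧ (∀ j, ν j ≠ n → s j = 0) ∧ resL K ν n s ∈ g.M n e}
  zero_mem' := ⟨zero_mem _, fun _ _ => rfl, by rw [map_zero]; exact zero_mem _⟩
  add_mem' := by
    rintro a b ⟨h1, h2, h3⟩ ⟨h1', h2', h3'⟩
    refine ⟨add_mem h1 h1', fun j hj => ?_, ?_⟩
    · rw [Pi.add_apply, h2 j hj, h2' j hj, add_zero]
    · rw [map_add]; exact add_mem h3 h3'
  smul_mem' := by
    rintro c a ⟨h1, h2, h3⟩
    refine ⟨smul_mem _ _ h1, fun j hj => ?_, ?_⟩
    · rw [Pi.smul_apply, h2 j hj, smul_zero]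
    · rw [map_smul]; exact smul_mem _ _ h3

theorem mem_Mcl {n : ℕ} {e : Finset τ} {s : J → K} : s ∈ Mcl g CM n e ↔
    s ∈ CM ∧ (∀ j, ν j ≠ n → s j = 0) ∧ resL K ν n s ∈ g.M n e := Iff.rfl

/-- multiplying out finitely many labels -/
theorem Clsd.mul_out (h : Clsd g H CM) (F : Finset τ) (hF : ∀ t ∈ F, ∃ j ∈ H, j ∈ T t)
    {s : J → K} (hs : s ∈ CM) : (⋃ t ∈ F, T t)ᶜ.indicator s ∈ CM := by
  classical
  induction F using Finset.induction_on generalizing s with
  | empty => simpa using hs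
  | insert t F ht ih =>
    have h1 := ih (fun u hu => hF u (Finset.mem_insert_of_mem hu)) hs
    have h2 := sub_mem h1 (h.mulT t (hF t (Finset.mem_insert_self _ _)) _ h1)
    have h3 : (⋃ u ∈ F, T u)ᶜ.indicator s - (T t).indicator ((⋃ u ∈ F, T u)ᶜ.indicator s) =
        (⋃ u ∈ insert t F, T u)ᶜ.indicator s := by
      funext j
      rw [Pi.sub_apply]
      by_cases h4 : j ∈ T t
      · rw [Set.indicator_of_mem h4, sub_self, Set.indicator_of_notMem]
        intro h5
        exact h5 (Set.mem_iUnion₂.mpr ⟨t, Finset.mem_insert_self _ _, h4⟩)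
      · rw [Set.indicator_of_notMem h4, sub_zero]
        by_cases h5 : j ∈ ⋃ u ∈ F, T u
        · rw [Set.indicator_of_notMem (show j ∉ (⋃ u ∈ F, T u)ᶜ from fun h6 => h6 h5),
            Set.indicator_of_notMem]
          intro h6
          apply h6
          obtain ⟨u, hu, hj⟩ := Set.mem_iUnion₂.mp h5
          exact Set.mem_iUnion₂.mpr ⟨u, Finset.mem_insert_of_mem hu, hj⟩
        · rw [Set.indicator_of_mem (show j ∈ (⋃ u ∈ F, T u)ᶜ from h5), Set.indicator_of_mem]
          intro h6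
          obtain ⟨u, hu, hj⟩ := Set.mem_iUnion₂.mp h6
          rcases Finset.mem_insert.mp hu with rfl | hu
          · exact h4 hj
          · exact h5 (Set.mem_iUnion₂.mpr ⟨u, hu, hj⟩)
    rwa [h3] at h2

theorem Clsd.M0_disj (h : Clsd g H CM) (n : ℕ) (e : Finset τ) {s : J → K}
    (hs : s ∈ Mcl g CM n e)
    (hs' : resL K (fun j : H => ν j) n (resH K H s) ∈
      Cpl K (TL (fun t => {j : H | (j : J) ∈ T t}) (fun j : H => ν j) n) e) : s = 0 := by
  classical
  obtain ⟨h1, h2, h3⟩ := hs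
  obtain ⟨-, F, hF1, hF2⟩ := hs'
  set F' := F.filter (fun t => ∃ j ∈ H, j ∈ T t) with hF'
  have h4 := h.mul_out F' (fun t ht => (Finset.mem_filter.mp ht).2) h1
  have h5 : (⋃ t ∈ F', T t)ᶜ.indicator s = 0 := by
    apply h.sep _ h4
    intro j hj
    by_cases h6 : j ∈ ⋃ t ∈ F', T t
    · exact Set.indicator_of_notMem (show j ∉ (⋃ u ∈ F', T u)ᶜ from fun h7 => h7 h6) _
    · rw [Set.indicator_of_mem (show j ∈ (⋃ u ∈ F', T u)ᶜ from h6)]
      by_contra h7
      have h8 : ν j = n := by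
        by_contra h8
        exact h7 (h2 j h8)
      obtain ⟨t, ht, hjt⟩ := hF2 ⟨⟨j, hj⟩, h8⟩ h7
      exact h6 (Set.mem_iUnion₂.mpr ⟨t, Finset.mem_filter.mpr ⟨ht, j, hj, hjt⟩, hjt⟩)
  have h6 : ∀ j, s j ≠ 0 → ∃ t ∈ F', j ∈ T t := by
    intro j hj
    by_contra h7
    apply hj
    have h8 := congrFun h5 j
    rw [Set.indicator_of_mem] at h8
    · exact h8
    · intro h9
      obtain ⟨t, ht, hjt⟩ := Set.mem_iUnion₂.mp h9
      exact h7 ⟨t, ht, hjt⟩
  have h7 : resL K ν n s ∈ g.M n e ⊓ Cpl K (TL T ν n) e := by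
    refine ⟨h3, (g.dec n).le e h3, F', ?_, ?_⟩
    · intro t ht
      exact hF1 t (Finset.mem_filter.mp ht).1
    · intro j hj
      exact h6 j.1 hj
  rw [(g.dec n).disj e, mem_bot] at h7
  funext j
  by_cases h8 : ν j = n
  · exact congrFun h7 ⟨j, h8⟩
  · exact h2 j h8

/-- The restricted decomposition. -/
theorem Clsd.exists_glob (h : Clsd g H CM) :
    ∃ g' : Glob K (fun t => {j : H | (j : J) ∈ T t}) (fun j : H => ν j),
      ∀ t, ∀ s ∈ CM, g'.E t (resH K H s) = resH K H (g.E t s) := by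
  classical
  have hA : ∀ n e, ((Mcl g CM n e).map (resH K H)).map (resL K (fun j : H => ν j) n) ≤
      Cs K (TL (fun t => {j : H | (j : J) ∈ T t}) (fun j : H => ν j) n) e := by
    intro n e
    rw [← Submodule.map_comp]
    rintro _ ⟨s, hs, rfl⟩
    intro j hj t ht
    exact (g.dec n).le e hs.2.2 ⟨j.1.1, j.2⟩ hj t ht
  have hB : ∀ n e, ((Mcl g CM n e).map (resH K H)).map (resL K (fun j : H => ν j) n) ⊓
      Cpl K (TL (fun t => {j : H | (j : J) ∈ T t}) (fun j : H => ν j) n) e = ⊥ := by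
    intro n e
    rw [eq_bot_iff, ← Submodule.map_comp]
    rintro _ ⟨⟨s, hs, rfl⟩, h2⟩
    rw [mem_bot, h.M0_disj n e hs h2, map_zero]
  obtain ⟨g', hg'⟩ := Pool.Agent.TOM.exists_glob (K := K) (T := fun t => {j : H | (j : J) ∈ T t})
    (ν := fun j : H => ν j) (fun j e he => g.bound j.1 e he) _ hA hB
  · refine ⟨g', fun t s hs => ?_⟩
    apply ext_resL (ν := fun j : H => ν j)
    intro n
    rw [g'.resL_E, ← resLH_resL, ← resLH_resL, g.resL_E]
    -- decompose
    have h1 : ∀ e, g.C n e s ∈ Mcl g CM n e := by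
      intro e
      refine ⟨h.C_mem n e s hs, fun j hj => g.C_apply_neg n e s j hj, ?_⟩
      rw [g.resL_C]
      exact (g.ops n).c_mem (g.top n) e _
    have h2 : ∀ e, resLH ν H n (g.c n e (resL K ν n s)) ∈ g'.M n e := by
      intro e
      apply hg' n e
      rw [← g.resL_C, resLH_resL]
      exact mem_map_of_mem (mem_map_of_mem (h1 e))
    have h3 := (g.ops n).c_finite (g.top n) (resL K ν n s)
    have h4 := (g.ops n).sum_c (g.top n) (resL K ν n s) h3.toFinset
      (fun e he => h3.mem_toFinset.mpr he)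
    have h5 : ∀ e, g'.P n t (resLH ν H n (g.c n e (resL K ν n s))) =
        resLH ν H n (g.P n t (g.c n e (resL K ν n s))) := by
      intro e
      have h6 := (g.ops n).c_mem (g.top n) e (resL K ν n s)
      by_cases hte : t ∈ e
      · rw [(g'.ops n).P_in t e _ (h2 e) hte, (g.ops n).P_in t e _ h6 hte]
      · rw [(g'.ops n).P_out t e _ (h2 e) hte, (g.ops n).P_out t e _ h6 hte, map_zero]
    calc g'.P n t (resLH ν H n (resL K ν n s))
        = g'.P n t (resLH ν H n (∑ e ∈ h3.toFinset, g.c n e (resL K ν n s))) := by rw [h4]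
      _ = ∑ e ∈ h3.toFinset, g'.P n t (resLH ν H n (g.c n e (resL K ν n s))) := by
        rw [map_sum, map_sum]
      _ = ∑ e ∈ h3.toFinset, resLH ν H n (g.P n t (g.c n e (resL K ν n s))) :=
        Finset.sum_congr rfl (fun e _ => h5 e)
      _ = resLH ν H n (g.P n t (∑ e ∈ h3.toFinset, g.c n e (resL K ν n s))) := by
        rw [map_sum, map_sum]
      _ = resLH ν H n (g.P n t (resL K ν n s)) := by rw [h4]

end

/-- The main linear theorem for a restriction. -/
theorem main_sub {K : Type*} [Field K] {V : Type*} [AddCommGroup V] [Module K V] {J : Type*}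
    {T : V → Set J} {ν : J → ℕ} {g : Glob K T ν} {H : Set J} {CM : Submodule K (J → K)}
    (h : Clsd g H CM) {Vm : ℕ → Submodule K V} (hV : Antitone Vm)
    (hfin : ∀ W : Submodule K V, FiniteDimensional K W → ∃ m, W ⊓ Vm m = ⊥) :
    ∃ S : ℕ → Submodule K (H → V), Monotone S ∧
      (∀ (t : V) (s : H → K), (∀ j, s j ≠ 0 → (j : J) ∈ T t) → ∃ m, ten s t ∈ S m) ∧
      ∀ m w, w ∈ S m → InF (CM.map (resH K H)) (Vm m) w → InT (CM.map (resH K H)) w := by
  obtain ⟨g', hg'⟩ := h.exists_glob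
  have hR : Stab g'.E (CM.map (resH K H)) := by
    rintro t _ ⟨s, hs, rfl⟩
    rw [hg' t s hs]
    exact mem_map_of_mem (h.E_mem t s hs)
  obtain ⟨S, h1, h2, h3⟩ := main_lin g'.sys hV hfin hR
  exact ⟨S, h1, fun t s hs => h2 t s (g'.E_eq t s hs), h3⟩

end Pool.Agent.TOM
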