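import Mathlib
import Pool.Agent.Hhelper87.FC.Main2
set_option autoImplicit false

/-!
# The `p`-torsion of the centre as a vector space
-/

namespace Pool.Agent.TOM
open Subgroup Pool.Agent.Hhelper87.FC
open scoped IsMulCommutative

universe u

/-- `p`-torsion of the centre, written additively. -/
abbrev Vp (G : Type u) [Group G] (p : ℕ) : Type u :=
  Additive ((powMonoidHom p : center G →* center G).ker)

variable {G : Type u} [Group G]

theorem vp_nsmul (p : ℕ) (t : Vp G p) : p • t = 0 := by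
  have h1 : ((Additive.toMul t).1 : center G) ^ p = 1 := (Additive.toMul t).2
  apply Additive.toMul.injective
  rw [toMul_nsmul, toMul_zero]
  apply Subtype.ext
  exact h1

noncomputable instance vpModule (p : ℕ) : Module (ZMod p) (Vp G p) :=
  AddCommGroup.zmodModule (vp_nsmul p)

/-- the group element -/
def vG {p : ℕ} (t : Vp G p) : G := (((Additive.toMul t).1 : center G) : G)

/-- the central group element -/
def vC {p : ℕ} (t : Vp G p) : center G := (Additive.toMul t).1

theorem coe_vC {p : ℕ} (t : Vp G p) : ((vC t : center G) : G) = vG t := rfl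

theorem vC_add {p : ℕ} (t u : Vp G p) : vC (t + u) = vC t * vC u := rfl

theorem vC_zero {p : ℕ} : vC (0 : Vp G p) = 1 := rfl

theorem vC_neg {p : ℕ} (t : Vp G p) : vC (-t) = (vC t)⁻¹ := rfl

theorem vC_pow {p : ℕ} (t : Vp G p) : vC t ^ p = 1 := (Additive.toMul t).2

theorem vC_injective {p : ℕ} : Function.Injective (vC : Vp G p → center G) := by
  intro t u h
  apply Additive.toMul.injective
  exact Subtype.ext h

theorem vG_injective {p : ℕ} : Function.Injective (vG : Vp G p → G) := by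
  intro t u h
  exact vC_injective (Subtype.ext h)

theorem vG_add {p : ℕ} (t u : Vp G p) : vG (t + u) = vG t * vG u := rfl

theorem vG_zero {p : ℕ} : vG (0 : Vp G p) = 1 := rfl

theorem vG_neg {p : ℕ} (t : Vp G p) : vG (-t) = (vG t)⁻¹ := rfl

theorem vG_center {p : ℕ} (t : Vp G p) : vG t ∈ center G := (vC t).2

theorem vG_pow {p : ℕ} (t : Vp G p) : vG t ^ p = 1 := by
  have h1 := congrArg (fun z : center G => (z : G)) (vC_pow t)
  simpa only [SubmonoidClass.coe_pow, coe_vC, OneMemClass.coe_one] using h1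

theorem vC_nsmul {p : ℕ} (n : ℕ) (t : Vp G p) : vC (n • t) = vC t ^ n := by
  induction n with
  | zero => rw [zero_smul, pow_zero, vC_zero]
  | succ n ih => rw [succ_nsmul, pow_succ, vC_add, ih]

theorem vC_smul {p : ℕ} [NeZero p] (a : ZMod p) (t : Vp G p) : vC (a • t) = vC t ^ a.val := by
  rw [← vC_nsmul, ← Nat.cast_smul_eq_nsmul (ZMod p), ZMod.natCast_zmod_val]

theorem vC_sum {p : ℕ} {ι : Type*} (F : Finset ι) (f : ι → Vp G p) :
    vC (∑ i ∈ F, f i) = ∏ i ∈ F, vC (f i) := by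
  classical
  induction F using Finset.induction_on with
  | empty => simp [vC_zero]
  | insert i F hi ih => rw [Finset.sum_insert hi, Finset.prod_insert hi, vC_add, ih]

theorem exists_vC {p : ℕ} (g : center G) (hg : g ^ p = 1) : ∃ t : Vp G p, vC t = g :=
  ⟨Additive.ofMul ⟨g, hg⟩, rfl⟩

/-- the elements of the `p`-torsion which are `p ^ m`-th powers in the central part of the
derived subgroup -/
noncomputable def Vm (G : Type u) [Group G] (p m : ℕ) : Submodule (ZMod p) (Vp G p) :=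
  AddSubgroup.toZModSubmodule p
    { carrier := {t | ∃ a : center G, (a : G) ∈ _root_.commutator G ∧ a ^ (p ^ m) = vC t}
      zero_mem' := ⟨1, one_mem _, by rw [one_pow, vC_zero]⟩
      add_mem' := by
        rintro t u ⟨a, ha, hat⟩ ⟨b, hb, hbu⟩
        exact ⟨a * b, mul_mem ha hb, by rw [mul_pow, hat, hbu, vC_add]⟩
      neg_mem' := by
        rintro t ⟨a, ha, hat⟩
        exact ⟨a⁻¹, inv_mem ha, by rw [inv_pow, hat, vC_neg]⟩ }

theorem mem_Vm {p m : ℕ} {t : Vp G p} : t ∈ Vm G p m ↔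
    ∃ a : center G, (a : G) ∈ _root_.commutator G ∧ a ^ (p ^ m) = vC t := Iff.rfl

theorem Vm_anti (p : ℕ) : Antitone (Vm G p) := by
  apply antitone_nat_of_succ_le
  intro m t ht
  obtain ⟨a, ha, hat⟩ := mem_Vm.mp ht
  refine mem_Vm.mpr ⟨a ^ p, pow_mem ha p, ?_⟩
  rw [← hat, ← pow_mul, pow_succ, mul_comm]

theorem Vm_fin (hX : ResX G) {p : ℕ} [hpf : Fact p.Prime] (W : Submodule (ZMod p) (Vp G p))
    (hW : FiniteDimensional (ZMod p) W) : ∃ m, W ⊓ Vm G p m = ⊥ := by
  classical
  have hp : p.Prime := hpf.out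
  have hfin : Finite W := Module.finite_of_finite (ZMod p)
  let E : Subgroup G :=
    { carrier := vG '' (W : Set (Vp G p))
      one_mem' := ⟨0, zero_mem _, vG_zero⟩
      mul_mem' := by
        rintro _ _ ⟨t, ht, rfl⟩ ⟨u, hu, rfl⟩
        exact ⟨t + u, add_mem ht hu, vG_add t u⟩
      inv_mem' := by
        rintro _ ⟨t, ht, rfl⟩
        exact ⟨-t, neg_mem ht, vG_neg t⟩ }
  have hE : FN E := by
    refine ⟨⟨?_⟩, (Set.toFinite (W : Set (Vp G p))).image _⟩
    rintro _ ⟨t, ht, rfl⟩ g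
    refine ⟨t, ht, ?_⟩
    rw [mem_center_iff.mp (vG_center t) g, mul_inv_cancel_right]
  obtain ⟨e, he, hEe⟩ := exists_exponent hX hE
  obtain ⟨k, e', he', hek⟩ := Nat.exists_eq_pow_mul_and_not_dvd he.ne' p hp.ne_one
  have hcop : Nat.Coprime e' p := ((Nat.Prime.coprime_iff_not_dvd hp).mpr he').symm
  obtain ⟨e'', q, hq⟩ := exists_inverse_mod hp.one_lt hcop
  refine ⟨k, ?_⟩
  rw [eq_bot_iff]
  rintro t ⟨ht1, ht2⟩
  obtain ⟨a, ha, hat⟩ := mem_Vm.mp ht2
  have h1 : vG t ∈ E := ⟨t, ht1, rfl⟩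
  have h2 : vG t = ((a : G) ^ e'') ^ e := by
    have h3 : vC t = (a ^ e'') ^ e := by
      rw [← pow_inverse_mod hq (vC_pow t), ← hat, ← pow_mul, ← pow_mul, hek]
      congr 1
      ring
    have h4 := congrArg (fun z : center G => (z : G)) h3
    simpa only [SubmonoidClass.coe_pow, coe_vC] using h4
  have h3 : vG t ∈ PW G e := by
    rw [h2]
    exact pow_mem_PW (pow_mem ha _) e
  have h4 : vG t ∈ E ⊓ PW G e := ⟨h1, h3⟩
  rw [hEe, mem_bot] at h4
  rw [Submodule.mem_bot]
  apply vG_injective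
  rw [h4, vG_zero]

end Pool.Agent.TOM
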