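import Mathlib
import Pool.Agent.TOM.Kul
import Pool.Agent.TOM.Ind
import Pool.Agent.TOM.VP
import Pool.Agent.TOM.Sub
set_option autoImplicit false

/-!
# The decomposition for a closed triple, given the linear theorem
-/

namespace Pool.Agent.TOM
open Subgroup Pool.Agent.Hhelper87.FC
open scoped IsMulCommutative

universe u

/-- a function with finite range is a sum of elementary functions -/
theorem ten_decomp {K : Type*} [Field K] {V : Type*} [AddCommGroup V] [Module K V] {J : Type*}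
    (w : J → V) (F : Finset V) (hF : ∀ j, w j ∈ F) :
    w = ∑ t ∈ F, ten (Set.indicator {j | w j = t} (1 : J → K)) t := by
  classical
  funext j
  rw [Finset.sum_apply, Finset.sum_eq_single_of_mem (w j) (hF j)]
  · rw [ten_apply, Set.indicator_of_mem (by rfl), Pi.one_apply, one_smul]
  · intro t _ hne
    rw [ten_apply, Set.indicator_of_notMem, zero_smul]
    intro h
    exact hne h.symm

variable {G : Type u} [Group G] {Dt : Dat G} {Op : (p : ℕ) → (G → ZMod p) → Set (G → ZMod p)}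
  {Lb : (p : ℕ) → (G → ZMod p) → Set G} {GM : Subgroup G} {QM : Subgroup (MulAut G)}
  {CM : (p : ℕ) → Submodule (ZMod p) (G → ZMod p)}

/-- the values of an element of order `p` -/
theorem exists_val {P' : Subgroup (MulAut G)} {hP' : P' ≤ Qh G} {p : ℕ}
    (z : (theta GM P' hP').range) (hz : z ^ p = 1) :
    ∃ w : ↥(GM : Set G) → Vp G p, ∀ x : (GM : Set G), vC (w x) = z.1 ⟨x.1, x.2⟩ := by
  have h1 : ∀ x : (GM : Set G), ∃ t : Vp G p, vC t = z.1 ⟨x.1, x.2⟩ := by
    intro x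
    apply exists_vC
    have h2 := congrArg (fun z : (theta GM P' hP').range => z.1 ⟨x.1, x.2⟩) hz
    exact h2
  choose w hw using h1
  exact ⟨w, hw⟩

/-- the value function of an element has finite range -/
theorem exists_fin (hM : ClosedTriple Dt Op Lb GM QM CM) {P' : Subgroup (MulAut G)}
    {hP' : P' ≤ Qh G} {p : ℕ} (χ : Cp GM P' hP') (w : ↥(GM : Set G) → Vp G p)
    (hw : ∀ x : (GM : Set G), vG (w x) = (χ : MulAut G) x.1 * x.1⁻¹) :
    ∃ F : Finset (Vp G p), ∀ x, w x ∈ F := by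
  classical
  obtain ⟨E, hE, -, h1⟩ := hM.pair.exists_E (hP' χ.2.1)
  have hfin : {t : Vp G p | vG t ∈ (E : Set G)}.Finite := hE.2.preimage (vG_injective.injOn)
  refine ⟨hfin.toFinset, fun x => ?_⟩
  rw [Set.Finite.mem_toFinset]
  change vG (w x) ∈ (E : Set G)
  rw [hw x]
  exact h1 x.1 x.2

theorem mem_Jt_of {P' : Subgroup (MulAut G)} {hP' : P' ≤ Qh G} {p : ℕ} (χ : Cp GM P' hP')
    {x : G} {t : Vp G p} (hw : vG t = (χ : MulAut G) x * x⁻¹) : x ∈ Jt (vG t) := by
  change vG t * x ∈ conjugatesOf x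
  rw [hw, inv_mul_cancel_right]
  exact (LI_of_mem_Qh (hP' χ.2.1)).conjugates x

theorem vG_mem_GM (hM : ClosedTriple Dt Op Lb GM QM CM) {P' : Subgroup (MulAut G)}
    {hP' : P' ≤ Qh G} {p : ℕ} (χ : Cp GM P' hP') {x : G} (hx : x ∈ GM) {t : Vp G p}
    (hw : vG t = (χ : MulAut G) x * x⁻¹) : vG t ∈ GM := by
  rw [hw]
  exact mul_mem (hM.pair.LI_mem (LI_of_mem_Qh (hP' χ.2.1)) hx) (inv_mem hx)

/-- the value functions of the elements of `BB` have coefficients in `CM` -/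
theorem InT_of_mem_BB (hM : ClosedTriple Dt Op Lb GM QM CM) {P' : Subgroup (MulAut G)}
    {hP' : P' ≤ Qh G} {p : ℕ} [Fact p.Prime] (χ : Cp GM P' hP') (hχ : (χ : MulAut G) ∈ QM)
    (w : ↥(GM : Set G) → Vp G p)
    (hw : ∀ x : (GM : Set G), vG (w x) = (χ : MulAut G) x.1 * x.1⁻¹) :
    InT ((CM p).map (resH (ZMod p) (GM : Set G))) w := by
  classical
  obtain ⟨F, hF⟩ := exists_fin hM χ w hw
  intro l
  have h1 : (fun x => l (w x)) =
      ∑ t ∈ F, l t • (Set.indicator {x | w x = t} (1 : ↥(GM : Set G) → ZMod p)) := by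
    have h2 := lam_sum l F (fun t => Set.indicator {x | w x = t} (1 : ↥(GM : Set G) → ZMod p))
    rw [← ten_decomp w F hF] at h2
    exact h2
  rw [h1]
  refine sum_mem (fun t _ => Submodule.smul_mem _ _ ?_)
  by_cases ht : ∃ x, w x = t
  · obtain ⟨x, rfl⟩ := ht
    refine ⟨Set.indicator {y : G | (χ : MulAut G) y = vG (w x) * y} (1 : G → ZMod p),
      hM.ind p χ hχ _ (vG_mem_GM hM χ x.2 (hw x)), ?_⟩
    funext y
    rw [resH_apply]
    by_cases hy : w y = w x
    · have e1 : y.1 ∈ {y : G | (χ : MulAut G) y = vG (w x) * y} := by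
        change (χ : MulAut G) y.1 = vG (w x) * y.1
        rw [← hy, hw y, inv_mul_cancel_right]
      have e2 : y ∈ {x' | w x' = w x} := hy
      rw [Set.indicator_of_mem e1, Set.indicator_of_mem e2]
      rfl
    · have e1 : y.1 ∉ {y : G | (χ : MulAut G) y = vG (w x) * y} := by
        intro h
        apply hy
        apply vG_injective
        have h' : (χ : MulAut G) y.1 = vG (w x) * y.1 := h
        rw [hw y, h', mul_inv_cancel_right]
      have e2 : y ∉ {x' | w x' = w x} := hy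
      rw [Set.indicator_of_notMem e1, Set.indicator_of_notMem e2]
  · have h2 : Set.indicator {x | w x = t} (1 : ↥(GM : Set G) → ZMod p) = 0 := by
      funext x
      rw [Set.indicator_of_notMem]
      · rfl
      · intro h
        exact ht ⟨x, h⟩
    rw [h2]
    exact zero_mem _

/-- an element whose value function has coefficients in `CM` lies in `BB` -/
theorem mem_BB_of_InT (hM : ClosedTriple Dt Op Lb GM QM CM) {P' : Subgroup (MulAut G)}
    {hP' : P' ≤ Qh G} (hQP : QM ≤ P') {p : ℕ} [hp : Fact p.Prime] (χ : Cp GM P' hP')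
    (w : ↥(GM : Set G) → Vp G p)
    (hw : ∀ x : (GM : Set G), vG (w x) = (χ : MulAut G) x.1 * x.1⁻¹)
    (hT : InT ((CM p).map (resH (ZMod p) (GM : Set G))) w) :
    (theta GM P' hP').rangeRestrict χ ∈ BB GM QM P' hP' := by
  classical
  obtain ⟨F, hF⟩ := exists_fin hM χ w hw
  -- a basis of the span of the range
  obtain ⟨b, hbr, hbs, hbl⟩ := exists_linearIndependent (ZMod p) (Set.range w)
  have hbfin : b.Finite := F.finite_toSet.subset (fun t ht => by
    obtain ⟨x, rfl⟩ := hbr ht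
    exact hF x)
  let B : Finset (Vp G p) := hbfin.toFinset
  have hB : (B : Set (Vp G p)) = b := by simp [B]
  have hBl : LinearIndependent (ZMod p) (fun i : B => (i : Vp G p)) := by
    have h4 : LinearIndependent (ZMod p) (fun i : ((B : Set (Vp G p)) : Type _) =>
        (i : Vp G p)) := by
      rw [hB]
      exact hbl
    exact h4
  obtain ⟨l, hl⟩ := exists_dual B hBl
  have hs : ∀ i : B, ∃ s ∈ CM p, ∀ x : (GM : Set G), s x.1 = l i (w x) := by
    intro i
    obtain ⟨s, hs, h1⟩ := hT (l i)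
    exact ⟨s, hs, fun x => congrFun h1 x⟩
  choose s hs1 hs2 using hs
  have hiw : ∀ i : B, ∃ x, w x = (i : Vp G p) := by
    intro i
    apply hbr
    rw [← hB]
    exact i.2
  let q : B → center G × (G → ZMod p) := fun i => (vC (i : Vp G p), s i)
  have hq : Function.Injective q := by
    intro i j hij
    apply Subtype.ext
    exact vC_injective (congrArg Prod.fst hij)
  let L : Finset (center G × (G → ZMod p)) := Finset.univ.image q
  have hprod : ∀ x : G, (∏ r ∈ L, r.1 ^ (r.2 x).val : center G) =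
      ∏ i : B, vC (i : Vp G p) ^ (s i x).val := by
    intro x
    exact Finset.prod_image (fun i _ j _ h => hq h)
  have hval : ∀ x : (GM : Set G), (∏ r ∈ L, r.1 ^ (r.2 x.1).val : center G) = vC (w x) := by
    intro x
    have h1 : w x ∈ Submodule.span (ZMod p) (B : Set (Vp G p)) := by
      rw [hB, hbs]
      exact Submodule.subset_span ⟨x, rfl⟩
    rw [hprod]
    conv_rhs => rw [hl _ h1]
    rw [vC_sum]
    refine Finset.prod_congr rfl (fun i _ => ?_)
    rw [vC_smul, hs2]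
  have hg := hM.g5 p hp.out L (by
    intro r hr
    obtain ⟨i, -, rfl⟩ := Finset.mem_image.mp hr
    refine ⟨vC_pow _, ?_, hs1 i⟩
    obtain ⟨x, hx⟩ := hiw i
    change vG (i : Vp G p) ∈ GM
    rw [← hx]
    exact vG_mem_GM hM χ x.2 (hw x))
  obtain ⟨φ, hφ, h2⟩ := hg.use (LI_of_mem_Qh (hP' χ.2.1)) (by
    intro x hx
    change (χ : MulAut G) x * x⁻¹ = ((∏ r ∈ L, r.1 ^ (r.2 x).val : center G) : G)
    rw [hval ⟨x, hx⟩]
    exact (hw ⟨x, hx⟩).symm)
  have h4 : ∀ x ∈ GM, φ x = (χ : MulAut G) x := by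
    intro x hx
    have h5 : φ x * x⁻¹ = ((∏ r ∈ L, r.1 ^ (r.2 x).val : center G) : G) := h2 x
    rw [hval ⟨x, hx⟩] at h5
    have h6 : φ x * x⁻¹ = (χ : MulAut G) x * x⁻¹ := h5.trans (hw ⟨x, hx⟩)
    exact mul_right_cancel h6
  have hφC : φ ∈ Cp GM P' hP' := by
    refine ⟨hQP hφ, fun x hx => ?_⟩
    rw [h4 x hx]
    exact χ.2.2 x hx
  exact mem_BB.mpr ⟨⟨φ, hφC⟩, hφ, theta_ext _ _ h4⟩

/-- the elements whose value function lies in a given subspace -/
def chainS {P' : Subgroup (MulAut G)} {hP' : P' ≤ Qh G} {p : ℕ}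
    (S : Submodule (ZMod p) (↥(GM : Set G) → Vp G p)) : Subgroup (theta GM P' hP').range where
  carrier := {z | ∃ w ∈ S, ∀ x : (GM : Set G), vC (w x) = z.1 ⟨x.1, x.2⟩}
  one_mem' := ⟨0, zero_mem _, fun x => rfl⟩
  mul_mem' := by
    rintro a b ⟨w, hw, h1⟩ ⟨w', hw', h1'⟩
    refine ⟨w + w', add_mem hw hw', fun x => ?_⟩
    rw [Pi.add_apply, vC_add, h1, h1']
    rfl
  inv_mem' := by
    rintro a ⟨w, hw, h1⟩
    refine ⟨-w, neg_mem hw, fun x => ?_⟩
    rw [Pi.neg_apply, vC_neg, h1]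
    rfl

theorem mem_chainS {P' : Subgroup (MulAut G)} {hP' : P' ≤ Qh G} {p : ℕ}
    {S : Submodule (ZMod p) (↥(GM : Set G) → Vp G p)} {z : (theta GM P' hP').range} :
    z ∈ chainS S ↔ ∃ w ∈ S, ∀ x : (GM : Set G), vC (w x) = z.1 ⟨x.1, x.2⟩ := Iff.rfl

theorem chainS_mono {P' : Subgroup (MulAut G)} {hP' : P' ≤ Qh G} {p : ℕ}
    {S S' : Submodule (ZMod p) (↥(GM : Set G) → Vp G p)} (h : S ≤ S') :
    (chainS S : Subgroup (theta GM P' hP').range) ≤ chainS S' := by
  rintro z ⟨w, hw, h1⟩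
  exact ⟨w, h hw, h1⟩

theorem chainS_cov (hM : ClosedTriple Dt Op Lb GM QM CM) {P' : Subgroup (MulAut G)}
    {hP' : P' ≤ Qh G} {p : ℕ} [Fact p.Prime]
    {S : ℕ → Submodule (ZMod p) (↥(GM : Set G) → Vp G p)} (hS1 : Monotone S)
    (hS2 : ∀ (t : Vp G p) (s : ↥(GM : Set G) → ZMod p), (∀ x, s x ≠ 0 → (x : G) ∈ Jt (vG t)) →
        ∃ m, ten s t ∈ S m) (a : (theta GM P' hP').range) (ha : a ^ p = 1) :
    ∃ n, a ∈ chainS (S n) := by
  classical
  obtain ⟨w, hw⟩ := exists_val a ha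
  obtain ⟨χ, rfl⟩ := MonoidHom.rangeRestrict_surjective _ a
  have hw' : ∀ x : (GM : Set G), vG (w x) = (χ : MulAut G) x.1 * x.1⁻¹ := by
    intro x
    rw [← coe_vC, hw x]
    rfl
  obtain ⟨F, hF⟩ := exists_fin hM χ w hw'
  have h1 : ∀ t : Vp G p, ∃ m,
      ten (Set.indicator {x | w x = t} (1 : ↥(GM : Set G) → ZMod p)) t ∈ S m := by
    intro t
    apply hS2
    intro x hx
    have h2 : w x = t := by
      by_contra h3
      have h3' : x ∉ {x | w x = t} := h3
      exact hx (Set.indicator_of_notMem h3' _)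
    rw [← h2]
    exact mem_Jt_of χ (hw' x)
  choose m hm using h1
  have h2 : (∑ t ∈ F, ten (Set.indicator {x | w x = t} (1 : ↥(GM : Set G) → ZMod p)) t) ∈
      S (F.sup m) := sum_mem (fun t ht => hS1 (Finset.le_sup ht) (hm t))
  rw [← ten_decomp w F hF] at h2
  exact ⟨F.sup m, mem_chainS.mpr ⟨w, h2, hw⟩⟩

theorem chainS_sep (hM : ClosedTriple Dt Op Lb GM QM CM) {P' : Subgroup (MulAut G)}
    {hP' : P' ≤ Qh G} (hQP : QM ≤ P') {p : ℕ} [Fact p.Prime] {n : ℕ}
    {S : Submodule (ZMod p) (↥(GM : Set G) → Vp G p)}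
    (hS3 : ∀ w ∈ S, InF ((CM p).map (resH (ZMod p) (GM : Set G))) (Vm G p n) w →
        InT ((CM p).map (resH (ZMod p) (GM : Set G))) w)
    (z : (theta GM P' hP').range) (hz : z ∈ chainS S) (c : (theta GM P' hP').range)
    (hc : c ∈ BB GM QM P' hP') (hcp : c ^ p = 1) (y : (theta GM P' hP').range)
    (hzy : z = c * y ^ (p ^ n)) : z ∈ BB GM QM P' hP' := by
  classical
  obtain ⟨w, hw, h1⟩ := mem_chainS.mp hz
  obtain ⟨wc, hwc⟩ := exists_val c hcp
  have hdiff : ∀ x, w x - wc x ∈ Vm G p n := by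
    intro x
    refine mem_Vm.mpr ⟨(y.1 ⟨x.1, x.2⟩ : center G), ?_, ?_⟩
    · obtain ⟨ρ, rfl⟩ := MonoidHom.rangeRestrict_surjective _ y
      exact displacement_mem_commutator (LI_of_mem_Qh (hP' ρ.2.1)) x.1
    · have h3 : (z.1 ⟨x.1, x.2⟩ : center G) =
          (c.1 ⟨x.1, x.2⟩ : center G) * (y.1 ⟨x.1, x.2⟩ : center G) ^ (p ^ n) := by
        rw [hzy]
        rfl
      rw [sub_eq_add_neg, vC_add, vC_neg, h1 x, hwc x, h3, mul_comm, ← mul_assoc,
        inv_mul_cancel, one_mul]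
  obtain ⟨χ, rfl⟩ := MonoidHom.rangeRestrict_surjective _ z
  have hw' : ∀ x : (GM : Set G), vG (w x) = (χ : MulAut G) x.1 * x.1⁻¹ := by
    intro x
    rw [← coe_vC, h1 x]
    rfl
  obtain ⟨φ, hφ, rfl⟩ := mem_BB.mp hc
  have hwc' : ∀ x : (GM : Set G), vG (wc x) = (φ : MulAut G) x.1 * x.1⁻¹ := by
    intro x
    rw [← coe_vC, hwc x]
    rfl
  have hTc := InT_of_mem_BB hM φ hφ wc hwc'
  have hInF : InF ((CM p).map (resH (ZMod p) (GM : Set G))) (Vm G p n) w := by
    intro l hl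
    have h2 : (fun x => l (w x)) = fun x => l (wc x) := by
      funext x
      have h3 := hl _ (hdiff x)
      rw [map_sub] at h3
      exact sub_eq_zero.mp h3
    rw [h2]
    exact hTc l
  exact mem_BB_of_InT hM hQP χ w hw' (hS3 w hw hInF)

theorem decomp_app (hM : ClosedTriple Dt Op Lb GM QM CM)
    (hlin : ∀ (p : ℕ) [Fact p.Prime],
      ∃ S : ℕ → Submodule (ZMod p) (↥(GM : Set G) → Vp G p), Monotone S ∧
      (∀ (t : Vp G p) (s : ↥(GM : Set G) → ZMod p), (∀ x, s x ≠ 0 → (x : G) ∈ Jt (vG t)) →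
        ∃ m, ten s t ∈ S m) ∧
      ∀ m w, w ∈ S m → InF ((CM p).map (resH (ZMod p) (GM : Set G))) (Vm G p m) w →
        InT ((CM p).map (resH (ZMod p) (GM : Set G))) w)
    (P' : Subgroup (MulAut G)) (hP' : P' ≤ Qh G) (hQP : QM ≤ P') :
    ∃ L : Subgroup (MulAut G), L ≤ P' ∧ QM ⊓ L = ⊥ ∧
      (∀ ψ ∈ P', ∃ φ ∈ QM, ∃ l ∈ L, ψ = φ * l) ∧ ∀ p ∈ QM, ∀ l ∈ L, l * p = p * l := by
  classical
  have hpure := hM.pair.pureBB hP' hQP
  -- the chains, one for every number `p`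
  have hS : ∀ p : ℕ, ∃ S : ℕ → Subgroup (theta GM P' hP').range, Monotone S ∧
      (p.Prime → ∀ a : (theta GM P' hP').range, a ^ p = 1 → ∃ n, a ∈ S n) ∧
      (p.Prime → ∀ n, ∀ z ∈ S n, z ^ p = 1 → ∀ c ∈ BB GM QM P' hP', c ^ p = 1 →
        ∀ y : (theta GM P' hP').range, z = c * y ^ (p ^ n) → z ∈ BB GM QM P' hP') := by
    intro p
    by_cases hp : p.Prime
    · have : Fact p.Prime := ⟨hp⟩
      obtain ⟨S, hS1, hS2, hS3⟩ := hlin p
      exact ⟨fun n => chainS (S n), fun n n' hn => chainS_mono (hS1 hn),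
        fun _ a ha => chainS_cov hM hS1 hS2 a ha,
        fun _ n z hz _ c hc hcp y hzy => chainS_sep hM hQP (hS3 n) z hz c hc hcp y hzy⟩
    · exact ⟨fun _ => ⊥, fun _ _ _ => le_rfl, fun h => absurd h hp, fun h => absurd h hp⟩
  choose S hS1 hS2 hS3 using hS
  obtain ⟨H, hH1, hH2⟩ := kulikov_socle (A := (theta GM P' hP').range)
    (B := BB GM QM P' hP') (fun a => torsion_range a) hpure S hS1
    (fun p hp a ha => hS2 p hp a ha) (fun p hp => hS3 p hp)
  exact decomp_core hM.pair hP' hQP hH1 hH2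

end Pool.Agent.TOM
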