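import Mathlib
import Pool.Agent.TOM.Sub
import Pool.Agent.TOM.Cl
import Pool.Agent.TOM.VP
set_option autoImplicit false

/-!
The decomposition operators of an FC-group and their behaviour on closed triples.
-/

namespace Pool.Agent.TOM
open Subgroup Pool.Agent.Hhelper87.FC
open scoped IsMulCommutative

universe u
variable {G : Type u} [Group G]

/-- The number of conjugates. -/
noncomputable def nuc (hFC : IsFC G) (x : G) : ℕ := (hFC x).toFinset.card

theorem bound_conj (hFC : IsFC G) {τ : Type*} (val : τ → G) (hinj : Function.Injective val)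
    (x : G) (e : Finset τ) (h : ∀ t ∈ e, x ∈ Jt (val t)) : e.card ≤ nuc hFC x := by
  classical
  refine Finset.card_le_card_of_injOn (fun t => val t * x) ?_ ?_
  · intro t ht
    exact (hFC x).mem_toFinset.mpr (h t ht)
  · intro a _ b _ hab
    exact hinj (mul_right_cancel hab)

theorem nonempty_glob (hFC : IsFC G) (p : ℕ) [Fact p.Prime] :
    Nonempty (Glob (ZMod p) (fun t : Vp G p => Jt (vG t)) (nuc hFC)) := by
  obtain ⟨g, -⟩ := exists_glob (K := ZMod p) (T := fun t : Vp G p => Jt (vG t)) (ν := nuc hFC)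
    (fun x e h => bound_conj hFC _ vG_injective x e h) (fun _ _ => ⊥)
    (fun _ _ => bot_le) (fun _ _ => bot_inf_eq _)
  exact ⟨g⟩

/-- The chosen decomposition. -/
noncomputable def gg (hFC : IsFC G) (p : ℕ) [Fact p.Prime] :
    Glob (ZMod p) (fun t : Vp G p => Jt (vG t)) (nuc hFC) := (nonempty_glob hFC p).some

/-- The operators. -/
def Opp (hFC : IsFC G) (p : ℕ) (s : G → ZMod p) : Set (G → ZMod p) :=
  {s' | ∃ _ : Fact p.Prime, (∃ (n : ℕ) (e : Finset (Vp G p)), s' = (gg hFC p).C n e s) ∨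
    ∃ t, s' = (gg hFC p).E t s}

theorem Opp_countable (hFC : IsFC G) (p : ℕ) (s : G → ZMod p) : (Opp hFC p s).Countable := by
  classical
  by_cases hp : p.Prime
  · have hpf : Fact p.Prime := ⟨hp⟩
    have h1 := ((gg hFC p).C_count s).image (fun x => (gg hFC p).C x.1 x.2 s)
    have h2 := ((gg hFC p).E_count s).image (fun t => (gg hFC p).E t s)
    refine ((h1.union h2).union (Set.countable_singleton 0)).mono ?_
    rintro s' ⟨_, ⟨n, e, rfl⟩ | ⟨t, rfl⟩⟩
    · by_cases h : (gg hFC p).C n e s = 0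
      · exact Or.inr h
      · exact Or.inl (Or.inl ⟨(n, e), h, rfl⟩)
    · by_cases h : (gg hFC p).E t s = 0
      · exact Or.inr h
      · exact Or.inl (Or.inr ⟨t, h, rfl⟩)
  · refine Set.countable_empty.mono ?_
    rintro s' ⟨h, -⟩
    exact absurd h.out hp

variable {Dt : Dat G} {Lb : (p : ℕ) → (G → ZMod p) → Set G} {GM : Subgroup G}
  {QM : Subgroup (MulAut G)} {CM : (p : ℕ) → Submodule (ZMod p) (G → ZMod p)}

theorem label_mem (hM : ClosedPair Dt GM QM) {t x : G} (hx : x ∈ GM) (h : x ∈ Jt t) :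
    t ∈ GM := by
  classical
  have h1 : IsConj x (t * x) := h
  obtain ⟨g, hg⟩ := isConj_iff.mp h1
  obtain ⟨g', hg', h2⟩ := hM.bstar {x} (by simpa using hx) g
  have h3 : t = g' * x * g'⁻¹ * x⁻¹ := by
    rw [← h2 x (by simp), hg, mul_inv_cancel_right]
  rw [h3]
  exact mul_mem (mul_mem (mul_mem hg' hx) (inv_mem hg')) (inv_mem hx)

theorem clsd_triple (hFC : IsFC G) (hM : ClosedTriple Dt (Opp hFC) Lb GM QM CM) (p : ℕ)
    [Fact p.Prime] : Clsd (gg hFC p) (GM : Set G) (CM p) where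
  sep := hM.sep p
  mulT := by
    rintro t ⟨x, hx, hxt⟩ s hs
    exact hM.mulJ p _ (label_mem hM.pair hx hxt) s hs
  C_mem := fun n e s hs => hM.op p s hs _ ⟨inferInstance, Or.inl ⟨n, e, rfl⟩⟩
  E_mem := fun t s hs => hM.op p s hs _ ⟨inferInstance, Or.inr ⟨t, rfl⟩⟩

/-- The linear statement for closed triples. -/
theorem main_triple (hFC : IsFC G) (hX : ResX G) (hM : ClosedTriple Dt (Opp hFC) Lb GM QM CM)
    (p : ℕ) [Fact p.Prime] :
    ∃ S : ℕ → Submodule (ZMod p) (↥(GM : Set G) → Vp G p), Monotone S ∧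
      (∀ (t : Vp G p) (s : ↥(GM : Set G) → ZMod p), (∀ x, s x ≠ 0 → (x : G) ∈ Jt (vG t)) →
        ∃ m, ten s t ∈ S m) ∧
      ∀ m w, w ∈ S m → InF ((CM p).map (resH (ZMod p) (GM : Set G))) (Vm G p m) w →
        InT ((CM p).map (resH (ZMod p) (GM : Set G))) w :=
  main_sub (clsd_triple hFC hM p) (Vm_anti p) (fun W hW => Vm_fin hX W hW)

end Pool.Agent.TOM
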