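import Mathlib
import Pool.Agent.TOM.Hs
import Pool.Agent.TOM.Ind
import Pool.Agent.TOM.App
set_option autoImplicit false

/-!
# The final theorem
-/

namespace Pool.Agent.TOM
open Subgroup Pool.Agent.Hhelper87.FC

universe u

theorem fam_all {G : Type u} [Group G] (hFC : IsFC G) (hX : ResX G) : Fam (center G) := by
  obtain ⟨Dt⟩ := exists_dat hX
  refine fam_of_decomp hFC Dt (Opp hFC) (fun _ _ => ∅) (Opp_countable hFC)
    (fun _ _ => Set.countable_empty) ?_
  intro GM QM CM hM P' hP' hQP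
  exact decomp_app hM (fun p _ => main_triple hFC hX hM p) P' hP' hQP

theorem main_all {G : Type u} [Group G]
    (hFC : ∀ x : G, (conjugatesOf x).Finite)
    (hX : ∀ g : G, g ≠ 1 → ∃ N : Subgroup G, ∃ _ : N.Normal, g ∉ N ∧
      Finite (_root_.commutator (G ⧸ N))) :
    ∃ (ι : Type u) (F : ι → Type u) (_ : ∀ i, Group (F i)) (_ : ∀ i, Finite (F i))
      (f : (G ⧸ center G) →* (∀ i, F i)), Function.Injective f ∧
        ∀ x, {i | f x i ≠ 1}.Finite :=
  embedding_of_fam (fam_all hFC hX)

end Pool.Agent.TOM
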